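import Pool.Agent.TH583.HB.Cyc
import Pool.Agent.W315.LB.Contr

/-!
# Two disjoint odd cycles of length at least five give the minor `2 C₅` with odd branch sets
-/

set_option autoImplicit false
set_option linter.unusedSectionVars false

namespace Pool.Agent.TH583.HB

open Finset SimpleGraph Pool.Agent.W315.LB

variable {W : Type}

theorem five_sets [DecidableEq W] (H : SimpleGraph W) {v : W} (c : H.Walk v v) (hc : c.IsCycle)
    (hodd : Odd c.length) (h5 : 5 ≤ c.length) :
    ∃ g : Fin 5 → Finset W, (∀ i j, i ≠ j → Disjoint (g i) (g j)) ∧ (∀ i, Odd (g i).card) ∧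
      (∀ i, (H.induce (g i : Set W)).Connected) ∧
      (∀ i : Fin 5, ∃ x ∈ g i, ∃ y ∈ g (i + 1), H.Adj x y) ∧
      ∀ i, ∀ x ∈ g i, x ∈ c.support := by
  obtain ⟨n, hn⟩ : ∃ n, n = c.length := ⟨_, rfl⟩
  have hinj : ∀ a b, a < n → b < n → c.getVert a = c.getVert b → a = b := by
    intro a b ha hb hab
    exact hc.getVert_injOn' (by simp only [Set.mem_ofPred_eq]; omega)
      (by simp only [Set.mem_ofPred_eq]; omega) hab
  let Jx : Fin 5 → Finset ℕ := fun i => if i = 0 then range (n - 4) else {n - 5 + i.1}
  have hJ0 : Jx 0 = range (n - 4) := rfl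
  have hJ1 : Jx 1 = {n - 4} := by
    show ({n - 5 + 1} : Finset ℕ) = _
    congr 1; omega
  have hJ2 : Jx 2 = {n - 3} := by
    show ({n - 5 + 2} : Finset ℕ) = _
    congr 1; omega
  have hJ3 : Jx 3 = {n - 2} := by
    show ({n - 5 + 3} : Finset ℕ) = _
    congr 1; omega
  have hJ4 : Jx 4 = {n - 1} := by
    show ({n - 5 + 4} : Finset ℕ) = _
    congr 1; omega
  have hJn : ∀ i, ∀ a ∈ Jx i, a < n := by
    intro i a ha
    fin_cases i
    · have : a ∈ range (n - 4) := ha
      rw [Finset.mem_range] at this; omega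
    · have : a ∈ ({n - 4} : Finset ℕ) := hJ1 ▸ ha
      rw [Finset.mem_singleton] at this; omega
    · have : a ∈ ({n - 3} : Finset ℕ) := hJ2 ▸ ha
      rw [Finset.mem_singleton] at this; omega
    · have : a ∈ ({n - 2} : Finset ℕ) := hJ3 ▸ ha
      rw [Finset.mem_singleton] at this; omega
    · have : a ∈ ({n - 1} : Finset ℕ) := hJ4 ▸ ha
      rw [Finset.mem_singleton] at this; omega
  have hJd : ∀ i j, i ≠ j → Disjoint (Jx i) (Jx j) := by
    intro i j hij
    rw [Finset.disjoint_left]
    intro a ha hb
    simp only [Jx] at ha hb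
    have hij' : i.1 ≠ j.1 := fun e => hij (Fin.ext e)
    split_ifs at ha hb with h1 h2 h2
    · exact hij (h1.trans h2.symm)
    · rw [Finset.mem_range] at ha
      rw [Finset.mem_singleton] at hb
      have : j.1 ≠ 0 := fun e => h2 (Fin.ext e)
      omega
    · rw [Finset.mem_range] at hb
      rw [Finset.mem_singleton] at ha
      have : i.1 ≠ 0 := fun e => h1 (Fin.ext e)
      omega
    · rw [Finset.mem_singleton] at ha hb
      omega
  have hset : ((range (n - 4)).image c.getVert : Set W) = {x | x ∈ (c.take (n - 5)).support} := by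
    ext x
    simp only [Finset.coe_image, Set.mem_image, Finset.mem_coe, Finset.mem_range,
      Set.mem_ofPred_eq]
    rw [SimpleGraph.Walk.mem_support_iff_exists_getVert]
    constructor
    · rintro ⟨a, ha, rfl⟩
      refine ⟨a, ?_, ?_⟩
      · rw [SimpleGraph.Walk.take_getVert]
        congr 1; omega
      · rw [SimpleGraph.Walk.take_length]; omega
    · rintro ⟨a, rfl, ha⟩
      rw [SimpleGraph.Walk.take_length] at ha
      refine ⟨a, by omega, ?_⟩
      rw [SimpleGraph.Walk.take_getVert]
      congr 1; omega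
  refine ⟨fun i => (Jx i).image c.getVert, ?_, ?_, ?_, ?_, ?_⟩
  · intro i j hij
    rw [Finset.disjoint_left]
    intro x hx hx'
    rw [Finset.mem_image] at hx hx'
    obtain ⟨a, ha, rfl⟩ := hx
    obtain ⟨b, hb, hab⟩ := hx'
    have := hinj b a (hJn j b hb) (hJn i a ha) hab
    subst this
    exact Finset.disjoint_left.1 (hJd i j hij) ha hb
  · intro i
    rw [Finset.card_image_of_injOn (fun a ha b hb hab => hinj a b (hJn i a ha) (hJn i b hb) hab)]
    obtain ⟨m, hm⟩ := hodd
    by_cases hi : i = 0
    · subst hi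
      rw [hJ0, Finset.card_range]
      exact ⟨m - 2, by omega⟩
    · simp only [Jx, if_neg hi, Finset.card_singleton]
      exact odd_one
  · intro i
    by_cases hi : i = 0
    · subst hi
      show (H.induce (((range (n - 4)).image c.getVert : Finset W) : Set W)).Connected
      have e : (((range (n - 4)).image c.getVert : Finset W) : Set W) =
          {x | x ∈ (c.take (n - 5)).support} := by rw [← hset]
      rw [e]
      exact (c.take (n - 5)).connected_induce_support
    · have e : (((Jx i).image c.getVert : Finset W) : Set W) = {c.getVert (n - 5 + i.1)} := by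
        simp only [Jx, if_neg hi, Finset.image_singleton, Finset.coe_singleton]
      show (H.induce (((Jx i).image c.getVert : Finset W) : Set W)).Connected
      rw [e]
      exact (H76TY.conn W H).1 _
  · have hadj : ∀ a b : ℕ, ∀ A B : Finset ℕ, a ∈ A → b ∈ B → a < n → (b = a + 1 ∨ (a + 1 = n ∧ b = 0)) →
        ∃ x ∈ A.image c.getVert, ∃ y ∈ B.image c.getVert, H.Adj x y := by
      intro a b A B ha hb han hab
      refine ⟨_, Finset.mem_image_of_mem _ ha, _, Finset.mem_image_of_mem _ hb, ?_⟩
      have h1 := c.adj_getVert_succ (i := a) (by omega)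
      rcases hab with rfl | ⟨h2, rfl⟩
      · exact h1
      · rw [h2, hn, c.getVert_length] at h1
        rw [c.getVert_zero]
        exact h1
    intro i
    fin_cases i
    · exact hadj (n - 5) (n - 4) (Jx 0) (Jx 1) (by rw [hJ0, Finset.mem_range]; omega)
        (by rw [hJ1]; exact Finset.mem_singleton_self _) (by omega) (Or.inl (by omega))
    · exact hadj (n - 4) (n - 3) (Jx 1) (Jx 2) (by rw [hJ1]; exact Finset.mem_singleton_self _)
        (by rw [hJ2]; exact Finset.mem_singleton_self _) (by omega) (Or.inl (by omega))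
    · exact hadj (n - 3) (n - 2) (Jx 2) (Jx 3) (by rw [hJ2]; exact Finset.mem_singleton_self _)
        (by rw [hJ3]; exact Finset.mem_singleton_self _) (by omega) (Or.inl (by omega))
    · exact hadj (n - 2) (n - 1) (Jx 3) (Jx 4) (by rw [hJ3]; exact Finset.mem_singleton_self _)
        (by rw [hJ4]; exact Finset.mem_singleton_self _) (by omega) (Or.inl (by omega))
    · exact hadj (n - 1) 0 (Jx 4) (Jx 0) (by rw [hJ4]; exact Finset.mem_singleton_self _)
        (by rw [hJ0, Finset.mem_range]; omega) (by omega) (Or.inr ⟨by omega, rfl⟩)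
  · intro i x hx
    rw [Finset.mem_image] at hx
    obtain ⟨a, _, rfl⟩ := hx
    exact c.getVert_mem_support a

/-- any two odd cycles of length at least five have a common vertex -/
def Meet (H : SimpleGraph W) : Prop :=
  ∀ (v w : W) (c : H.Walk v v) (c' : H.Walk w w), c.IsCycle → c'.IsCycle → Odd c.length →
    Odd c'.length → 5 ≤ c.length → 5 ≤ c'.length → ∃ x ∈ c.support, x ∈ c'.support

theorem two_c5_of_not_meet (H : SimpleGraph W) (h : ¬ Meet H) :
    OddMinor (cycleGraph 5 ⊕g cycleGraph 5) H := by
  classical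
  unfold Meet at h
  push Not at h
  obtain ⟨v, w, c, c', hc, hc', ho, ho', h5, h5', hd⟩ := h
  obtain ⟨g, g1, g2, g3, g4, g5⟩ := five_sets H c hc ho h5
  obtain ⟨g', g1', g2', g3', g4', g5'⟩ := five_sets H c' hc' ho' h5'
  have hcyc : ∀ i j : Fin 5, (cycleGraph 5).Adj i j → j = i + 1 ∨ i = j + 1 := by decide
  have hgg : ∀ i j, Disjoint (g i) (g' j) := by
    intro i j
    rw [Finset.disjoint_left]
    intro x hx hx'
    exact hd x (g5 i x hx) (g5' j x hx')
  refine ⟨Sum.elim g g', ?_, ?_, ?_, ?_⟩
  · rintro (i | i) (j | j) hij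
    · exact g1 i j (fun e => hij (by rw [e]))
    · exact hgg i j
    · exact (hgg j i).symm
    · exact g1' i j (fun e => hij (by rw [e]))
  · rintro (i | i)
    · exact g2 i
    · exact g2' i
  · rintro (i | i)
    · exact g3 i
    · exact g3' i
  · rintro (i | i) (j | j) hij
    · rcases hcyc i j (by simpa using hij) with rfl | rfl
      · exact g4 i
      · obtain ⟨x, hx, y, hy, hxy⟩ := g4 j
        exact ⟨y, hy, x, hx, hxy.symm⟩
    · simp at hij
    · simp at hij
    · rcases hcyc i j (by simpa using hij) with rfl | rfl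
      · exact g4' i
      · obtain ⟨x, hx, y, hy, hxy⟩ := g4' j
        exact ⟨y, hy, x, hx, hxy.symm⟩

end Pool.Agent.TH583.HB
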