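import Pool.Agent.TH583.HB.Heavy
import Pool.Agent.TH583.HB.Five
import Pool.Agent.W315.LB.Final
import Pool.Agent.W209.LB.Conn3
import Pool.Agent.W427.LB.Bicrit

/-!
# Hilbert bases of perfect matchings: bricks without disjoint long odd cycles and with few heavy sets
-/

set_option autoImplicit false
set_option linter.unusedSectionVars false

namespace Pool.Agent.TH583.HB

open Finset H76FC H76TX H76TY Pool.Agent.W315.LB SimpleGraph

/-- there is no partition of the vertices into two sets which both have perfect 2-matchings, one of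
them odd -/
def Solid {W : Type} (H : SimpleGraph W) : Prop :=
  ∀ S : Finset W, Odd S.card → Spanned H (S : Set W) → ¬ Spanned H (S : Set W)ᶜ

theorem few_of (W : Type) [Fintype W] (H : SimpleGraph W)
    (h : ∀ S T, Heavy H S → Heavy H T → Disjoint S T → False) : Few W H := by
  classical
  refine ⟨fun S => S.card, fun _ => 0, fun _ => le_rfl, ?_, ?_, ?_⟩
  · intro M _ S _
    have : cross M S ≤ S.card := Finset.card_filter_le _ _
    show cross M S ≤ 2 * S.card + 3
    omega
  · intro M _ S T hS hT hST _ _
    exact absurd (h S T hS hT hST) (fun h => h)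
  · simp

theorem few_of_solid (W : Type) [Fintype W] (H : SimpleGraph W) (h : Solid H) : Few W H :=
  few_of W H fun S _ hS _ _ => h S hS.odd hS.span hS.span'

theorem few_of_meet (W : Type) [Fintype W] (H : SimpleGraph W) (h : Meet H) : Few W H := by
  refine few_of W H fun S T hS hT hST => ?_
  obtain ⟨v, c, hc, hodd, h5, hs⟩ := hS.cyc
  obtain ⟨w, c', hc', hodd', h5', hs'⟩ := hT.cyc
  obtain ⟨x, hx, hx'⟩ := h v w c c' hc hc' hodd hodd' h5 h5'
  exact Finset.disjoint_left.1 hST (hs x hx) (hs' x hx')

/-- the classes of bricks -/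
def KF (W : Type) [Fintype W] (H : SimpleGraph W) : Prop := Known W H ∨ Few W H

theorem decomp_bricks (V E : Type) [Fintype V] [Fintype E] [DecidableEq E] (ends : E → Sym2 V)
    (hG : ∀ (W : Type) [Fintype W] (H : SimpleGraph W), Brick H →
      OddMinor H (SimpleGraph.fromEdgeSet (Set.range ends)) → KF W H) : Decomp ends := by
  refine decomp_of (fun V G => Good KF G) ?_ ?_ V E ends hG
  · intro V G H h hG
    exact good_sub id Function.injective_id h hG
  · intro V _ _ r p hp hg
    refine main Pool.Agent.W209.LB.conn3 Pool.Agent.W427.LB.bicrit transport H76TW.bip H76TW.span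
      tight2 connSide KF (fun V _ _ r p hc hp => eight' V r p (by omega) hp) ?_ _ V rfl r p hp hg
    intro V _ _ r p hr hp hnt _ hk
    rcases hk with hk | hk
    · exact Or.inl (cover_known hp hk)
    · exact Or.inr (step hr hp hnt hk)

theorem decomp_2C5 (V E : Type) [Fintype V] [Fintype E] [DecidableEq E] (ends : E → Sym2 V)
    (hG : ¬ OddMinor (cycleGraph 5 ⊕g cycleGraph 5) (SimpleGraph.fromEdgeSet (Set.range ends))) :
    Decomp ends := by
  classical
  refine decomp_bricks V E ends fun W _ H _ hH => Or.inr (few_of_meet W H ?_)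
  by_contra hM
  have h1 := two_c5_of_not_meet H hM
  obtain ⟨f, hf1, hf2, hf3, hf4⟩ := hH
  exact hG (oddMinor_trans _ H _ f hf1 hf2 hf3 hf4 h1)

end Pool.Agent.TH583.HB
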