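import Pool.Agent.H249R2.PM.Round
import Pool.Agent.H76R2.TX.Defs
import Pool.Agent.H76R2.FC.Basic

/-!
# Averaging over the perfect matchings of an `r`-graph (Edmonds' theorem)
-/

set_option autoImplicit false
set_option linter.unusedSectionVars false

namespace Pool.Agent.TH583.HB

open Finset H76FC H76TX

variable {V : Type} [Fintype V] [DecidableEq V]

theorem cut_pair {p : V → V → ℕ} (hs : ∀ u v, p u v = p v u) {r : ℕ} (S : Finset V) :
    Pool.Agent.H249R2.PM.cut (E := V × V) Prod.fst Prod.snd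
      (fun e => (p e.1 e.2 : ℝ) / (2 * r)) S = (H76FC.cut p S : ℝ) / r := by
  rw [Pool.Agent.H249R2.PM.cut_eq_ite]
  rw [← Finset.univ_product_univ, Finset.sum_product]
  have h1 : (H76FC.cut p S : ℝ) = ∑ u, ∑ v, if u ∈ S ∧ v ∉ S then (p u v : ℝ) else 0 := by
    unfold H76FC.cut
    push_cast
    rw [← Finset.sum_filter_add_sum_filter_not univ (· ∈ S)]
    have e1 : univ.filter (· ∈ S) = S := by ext x; simp
    have e2 : ∑ u ∈ univ.filter (fun x => ¬ x ∈ S), ∑ v, (if u ∈ S ∧ v ∉ S then (p u v : ℝ) else 0)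
        = 0 := by
      refine Finset.sum_eq_zero fun u hu => Finset.sum_eq_zero fun v _ => ?_
      rw [Finset.mem_filter] at hu
      rw [if_neg fun h => hu.2 h.1]
    rw [e1, e2, add_zero]
    refine Finset.sum_congr rfl fun u hu => ?_
    rw [← Finset.sum_filter_add_sum_filter_not univ (· ∈ Sᶜ)]
    have e3 : univ.filter (· ∈ Sᶜ) = Sᶜ := by ext x; simp
    have e4 : ∑ v ∈ univ.filter (fun x => ¬ x ∈ Sᶜ), (if u ∈ S ∧ v ∉ S then (p u v : ℝ) else 0)
        = 0 := by
      refine Finset.sum_eq_zero fun v hv => ?_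
      rw [Finset.mem_filter, Finset.mem_compl] at hv
      rw [if_neg fun h => hv.2 h.2]
    rw [e3, e4, add_zero]
    refine Finset.sum_congr rfl fun v hv => ?_
    rw [if_pos ⟨hu, Finset.mem_compl.1 hv⟩]
  have h2 : (H76FC.cut p S : ℝ) = ∑ u, ∑ v, if v ∈ S ∧ u ∉ S then (p u v : ℝ) else 0 := by
    rw [h1, Finset.sum_comm]
    refine Finset.sum_congr rfl fun u _ => Finset.sum_congr rfl fun v _ => ?_
    rw [hs v u]
  have h3 : ∑ u : V, ∑ v : V, (if Pool.Agent.H249R2.PM.Cr Prod.fst Prod.snd S (u, v)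
      then (p u v : ℝ) / (2 * r) else 0) = ((H76FC.cut p S : ℝ) + H76FC.cut p S) / (2 * r) := by
    nth_rewrite 1 [h1]
    rw [h2, ← Finset.sum_add_distrib, Finset.sum_div]
    refine Finset.sum_congr rfl fun u _ => ?_
    rw [← Finset.sum_add_distrib, Finset.sum_div]
    refine Finset.sum_congr rfl fun v _ => ?_
    unfold Pool.Agent.H249R2.PM.Cr
    by_cases hu : u ∈ S <;> by_cases hv : v ∈ S <;> simp [hu, hv]
  rw [h3, ← two_mul, mul_div_mul_left _ _ (two_ne_zero)]

theorem fr {r : ℕ} {p : V → V → ℕ} (hp : RGraph r p) (hr : 1 ≤ r) :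
    Pool.Agent.H249R2.PM.Fr (E := V × V) Prod.fst Prod.snd
      (fun e => (p e.1 e.2 : ℝ) / (2 * r)) := by
  have hr0 : (0 : ℝ) < r := by exact_mod_cast hr
  refine ⟨fun e => by positivity, fun v => ?_, fun S hS => ?_⟩
  · rw [cut_pair hp.symm]
    have h1 : H76FC.cut p {v} = r := by
      unfold H76FC.cut
      rw [Finset.sum_singleton]
      have h2 := Finset.sum_add_sum_compl {v} (fun w => p v w)
      rw [hp.reg, Finset.sum_singleton, hp.loopless, zero_add] at h2
      exact h2
    rw [h1]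
    exact div_self hr0.ne'
  · rw [cut_pair hp.symm, le_div_iff₀ hr0, one_mul]
    exact_mod_cast hp.odd S hS

/-- **Averaging.** -/
theorem exists_avg {r : ℕ} {p : V → V → ℕ} (hp : RGraph r p) (hr : 1 ≤ r)
    (F : Finset (Finset V)) (α : Finset V → ℝ) (hα : ∀ S ∈ F, 0 ≤ α S) :
    ∃ N : V → V, PMof p N ∧ ∑ S ∈ F, α S * out N S ≤ ∑ S ∈ F, α S * ((H76FC.cut p S : ℝ) / r) := by
  classical
  have hev : Even (Fintype.card V) := by
    by_contra hodd
    have := hp.odd univ (by simpa using hodd)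
    simp [H76FC.cut] at this
    omega
  have hfr := fr hp hr
  obtain ⟨M, hM, hpos, hcost⟩ := Pool.Agent.H249R2.PM.round (E := V × V) (Fintype.card V) V rfl hev
    Prod.fst Prod.snd (fun e => (p e.1 e.2 : ℝ) / (2 * r))
    (fun e => ∑ S ∈ F, α S * (if Pool.Agent.H249R2.PM.Cr Prod.fst Prod.snd S e then 1 else 0)) hfr
  have hr0 : (0 : ℝ) < r := by exact_mod_cast hr
  have hex : ∀ v : V, ∃ e ∈ M, Pool.Agent.H249R2.PM.Cr Prod.fst Prod.snd {v} e := by
    intro v
    have := hM.deg v
    obtain ⟨e, he⟩ := Finset.card_eq_one.1 this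
    have he' : e ∈ M.filter (Pool.Agent.H249R2.PM.Cr Prod.fst Prod.snd {v}) := by
      rw [he]; exact Finset.mem_singleton_self _
    exact ⟨e, (Finset.mem_filter.1 he').1, (Finset.mem_filter.1 he').2⟩
  have huniq : ∀ v : V, ∀ e ∈ M, ∀ e' ∈ M, Pool.Agent.H249R2.PM.Cr Prod.fst Prod.snd {v} e →
      Pool.Agent.H249R2.PM.Cr Prod.fst Prod.snd {v} e' → e = e' := by
    intro v e he e' he' h h'
    have := hM.deg v
    exact Finset.card_le_one.1 this.le e (Finset.mem_filter.2 ⟨he, h⟩) e'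
      (Finset.mem_filter.2 ⟨he', h'⟩)
  choose g hgM hgC using hex
  have hCr : ∀ (v : V) (e : V × V), Pool.Agent.H249R2.PM.Cr Prod.fst Prod.snd {v} e ↔
      (e.1 = v ∧ e.2 ≠ v) ∨ (e.2 = v ∧ e.1 ≠ v) := by
    intro v e
    rw [Pool.Agent.H249R2.PM.Cr_singleton]
    tauto
  set N : V → V := fun v => if (g v).1 = v then (g v).2 else (g v).1 with hN
  have hends : ∀ v, (g v = (v, N v) ∨ g v = (N v, v)) ∧ N v ≠ v := by
    intro v
    rcases (hCr v (g v)).1 (hgC v) with h | h
    · have h1 : N v = (g v).2 := by rw [hN]; simp only [h.1, if_true]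
      refine ⟨Or.inl (Prod.ext h.1 h1.symm), by rw [h1]; exact h.2⟩
    · have h1 : N v = (g v).1 := by rw [hN]; simp only [if_neg h.2]
      refine ⟨Or.inr (Prod.ext h1.symm h.1), by rw [h1]; exact h.2⟩
  have hinv : ∀ v, N (N v) = v := by
    intro v
    have h1 : g (N v) = g v := by
      refine huniq (N v) _ (hgM _) _ (hgM v) (hgC _) ?_
      rw [hCr]
      rcases (hends v).1 with h | h
      · right; rw [h]; exact ⟨rfl, (hends v).2.symm⟩
      · left; rw [h]; exact ⟨rfl, (hends v).2.symm⟩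
    rcases (hends v).1 with h | h <;> rcases (hends (N v)).1 with h' | h' <;> rw [h1, h] at h'
    · have := congrArg Prod.fst h'
      exact absurd this.symm (hends v).2
    · exact (congrArg Prod.fst h').symm
    · exact (congrArg Prod.snd h').symm
    · have := congrArg Prod.snd h'
      exact absurd this.symm (hends v).2
  have hPM : PMof p N := by
    refine ⟨⟨hinv, fun v => (hends v).2⟩, fun v => ?_⟩
    have h1 := hpos (g v) (hgM v)
    have h2 : (0 : ℝ) < p (g v).1 (g v).2 := by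
      by_contra hc
      have h3 : (p (g v).1 (g v).2 : ℝ) = 0 := le_antisymm (not_lt.1 hc) (Nat.cast_nonneg _)
      simp only [h3, zero_div, lt_self_iff_false] at h1
    have h3 : 0 < p (g v).1 (g v).2 := by exact_mod_cast h2
    rcases (hends v).1 with h | h
    · rw [h] at h3; exact h3
    · rw [h] at h3; rw [hp.symm]; exact h3
  refine ⟨N, hPM, ?_⟩
  have hout : ∀ S : Finset V, out N S ≤
      (M.filter (Pool.Agent.H249R2.PM.Cr Prod.fst Prod.snd S)).card := by
    intro S
    unfold out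
    refine Finset.card_le_card_of_injOn g ?_ ?_
    · intro v hv
      have hv' := Finset.mem_filter.1 (Finset.mem_coe.1 hv)
      refine Finset.mem_coe.2 (Finset.mem_filter.2 ⟨hgM v, ?_⟩)
      unfold Pool.Agent.H249R2.PM.Cr
      rcases (hends v).1 with h | h <;> rw [h] <;> simp only [hv'.1, hv'.2] <;> simp
    · intro v hv w hw hvw
      have hv' := Finset.mem_filter.1 (Finset.mem_coe.1 hv)
      have hw' := Finset.mem_filter.1 (Finset.mem_coe.1 hw)
      rcases (hends v).1 with h | h <;> rcases (hends w).1 with h' | h' <;> rw [hvw, h'] at h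
      · exact (congrArg Prod.fst h).symm
      · have h1 : w = N v := congrArg Prod.snd h
        exact absurd (h1 ▸ hw'.1) hv'.2
      · have h1 : w = N v := congrArg Prod.fst h
        exact absurd (h1 ▸ hw'.1) hv'.2
      · exact (congrArg Prod.snd h).symm
  have hL : ∑ S ∈ F, α S * out N S ≤ ∑ e ∈ M, ∑ S ∈ F,
      α S * (if Pool.Agent.H249R2.PM.Cr Prod.fst Prod.snd S e then 1 else 0) := by
    rw [Finset.sum_comm]
    refine Finset.sum_le_sum fun S hS => ?_
    rw [← Finset.mul_sum]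
    refine mul_le_mul_of_nonneg_left ?_ (hα S hS)
    rw [Finset.sum_boole]
    exact_mod_cast hout S
  have hR : ∑ e ∈ Finset.univ.filter (fun e : V × V => e.1 ≠ e.2), (∑ S ∈ F,
      α S * (if Pool.Agent.H249R2.PM.Cr Prod.fst Prod.snd S e then 1 else 0)) *
        ((p e.1 e.2 : ℝ) / (2 * r)) = ∑ S ∈ F, α S * ((H76FC.cut p S : ℝ) / r) := by
    rw [Finset.sum_congr rfl fun e _ => Finset.sum_mul _ _ _, Finset.sum_comm]
    refine Finset.sum_congr rfl fun S _ => ?_
    rw [← cut_pair hp.symm S, Pool.Agent.H249R2.PM.cut_eq_ite, Finset.sum_filter, Finset.mul_sum]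
    refine Finset.sum_congr rfl fun e _ => ?_
    by_cases hc : Pool.Agent.H249R2.PM.Cr Prod.fst Prod.snd S e
    · have hne : e.1 ≠ e.2 := Pool.Agent.H249R2.PM.Cr_ne hc
      simp only [hc, hne, ne_eq, not_false_eq_true, if_true, mul_one]
    · simp only [hc, if_false, mul_zero, zero_mul, ite_self]
  refine hL.trans (hcost.trans (le_of_eq ?_))
  exact hR

end Pool.Agent.TH583.HB
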