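import Pool.Agent.TH583.HB.Struct

/-!
# Minimal violated odd cuts are factor-critical
-/

set_option autoImplicit false
set_option linter.unusedSectionVars false

namespace Pool.Agent.TH583.HB

open Finset H76FC SimpleGraph

variable {V : Type} [Fintype V] [DecidableEq V]

/-- `H[S]` is factor-critical: deleting any vertex of `S` leaves a graph with a perfect matching -/
def Crit {W : Type} (H : SimpleGraph W) (S : Finset W) : Prop :=
  ∀ v ∈ S, ∃ M : W → W, ∀ x ∈ S, x ≠ v → M x ∈ S ∧ M x ≠ v ∧ M (M x) = x ∧ H.Adj x (M x)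

theorem count {s : ℕ} {q : V → V → ℕ} {S : Finset V} (h : MinV s q S) {ι : Type} 
    (Cs : Finset ι) (SC : ι → Finset V) (XV : Finset V) {v : V}
    (hodd : ∀ C ∈ Cs, Odd (SC C).card) (hsubS : ∀ C, SC C ⊆ S) (hv : v ∈ S) (hvC : ∀ C ∈ Cs, v ∉ SC C)
    (disj : ∀ C ∈ Cs, ∀ C' ∈ Cs, ∀ x, x ∈ SC C → x ∈ SC C' → C = C')
    (key : ∀ C, ∀ a ∈ SC C, ∀ b ∈ S, b ∉ SC C → q a b ≠ 0 → b ∈ XV) :
    s * Cs.card ≤ s * XV.card + H76FC.cut q S := by
  classical
  have hpd : Set.PairwiseDisjoint (↑Cs : Set ι) SC := by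
    intro C hC C' hC' hne
    rw [Function.onFun, Finset.disjoint_left]
    intro x hx hx'
    exact hne (disj C hC C' hC' x hx hx')
  have hE : ∀ B : Finset V, ∑ C ∈ Cs, E q (SC C) B = E q (Cs.biUnion SC) B := by
    intro B
    unfold E
    rw [Finset.sum_biUnion hpd]
  have hcutC : ∀ C ∈ Cs, s ≤ E q (SC C) XV + E q (SC C) Sᶜ := by
    intro C hC
    have hss : SC C ⊂ S := by
      refine Finset.ssubset_iff_subset_ne.2 ⟨hsubS C, fun he => ?_⟩
      exact hvC C hC (by rw [he]; exact hv)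
    have h1 := h.ge _ hss (hodd C hC)
    have e : (SC C)ᶜ = (S \ SC C) ∪ Sᶜ := by
      ext x
      have hx' := @hsubS C x
      simp only [Finset.mem_compl, Finset.mem_union, Finset.mem_sdiff]
      constructor
      · intro hx
        by_cases hxS : x ∈ S
        · exact Or.inl ⟨hxS, hx⟩
        · exact Or.inr hxS
      · rintro (hx | hx)
        · exact hx.2
        · exact fun h' => hx (hx' h')
    have hd : Disjoint (S \ SC C) Sᶜ := by
      rw [Finset.disjoint_left]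
      intro x hx hx'
      exact (Finset.mem_compl.1 hx') (Finset.mem_sdiff.1 hx).1
    rw [cut_E, e, E_union_right q _ hd] at h1
    have h2 : E q (SC C) (S \ SC C) ≤ E q (SC C) XV := by
      unfold E
      refine Finset.sum_le_sum fun a ha => ?_
      have e2 : ∑ b ∈ S \ SC C, q a b = ∑ b ∈ (S \ SC C).filter (fun b => q a b ≠ 0), q a b := by
        rw [Finset.sum_filter]
        refine Finset.sum_congr rfl fun b _ => ?_
        split_ifs with hh
        · rfl
        · exact not_not.1 hh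
      rw [e2]
      refine Finset.sum_le_sum_of_subset ?_
      intro b hb
      rw [Finset.mem_filter, Finset.mem_sdiff] at hb
      exact key C a ha b hb.1.1 hb.1.2 hb.2
    exact h1.trans (Nat.add_le_add_right h2 _)
  calc s * Cs.card = ∑ C ∈ Cs, s := by rw [Finset.sum_const, smul_eq_mul, mul_comm]
    _ ≤ ∑ C ∈ Cs, (E q (SC C) XV + E q (SC C) Sᶜ) := Finset.sum_le_sum hcutC
    _ = E q (Cs.biUnion SC) XV + E q (Cs.biUnion SC) Sᶜ := by
        rw [Finset.sum_add_distrib, hE, hE]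
    _ ≤ E q univ XV + E q S Sᶜ := by
        refine Nat.add_le_add (E_mono q (Finset.subset_univ _) (Finset.Subset.refl _))
          (E_mono q ?_ (Finset.Subset.refl _))
        intro x hx
        rw [Finset.mem_biUnion] at hx
        obtain ⟨C, _, hx⟩ := hx
        exact hsubS C hx
    _ = s * XV.card + H76FC.cut q S := by
        rw [E_symm h.symm univ XV, E_univ h.reg, cut_E]

theorem MinV.no_tutte {s : ℕ} {q : V → V → ℕ} {S : Finset V} (h : MinV s q S) {v : V} (hv : v ∈ S)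
    (X : Set {x | x ∈ S ∧ x ≠ v}) : ¬ ((J q S).induce {x | x ∈ S ∧ x ≠ v}).IsTutteViolator X := by
  classical
  unfold SimpleGraph.IsTutteViolator
  intro hviol
  set G := (J q S).induce {x | x ∈ S ∧ x ≠ v} with hG
  set H := ((⊤ : G.Subgraph).deleteVerts X).coe with hH
  obtain ⟨SC, hSC⟩ : ∃ SC : H.ConnectedComponent → Finset V, SC = fun C => ((fun a => (a.1.1 : V)) '' C.supp).toFinset := ⟨_, rfl⟩
  have inj : Function.Injective
      (fun a : ((⊤ : G.Subgraph).deleteVerts X).verts => (a.1.1 : V)) := by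
    intro a b hab
    exact Subtype.ext (Subtype.ext hab)
  have memSC : ∀ C x, x ∈ SC C ↔ ∃ (h1 : x ∈ {x | x ∈ S ∧ x ≠ v})
      (h2 : (⟨x, h1⟩ : {x | x ∈ S ∧ x ≠ v}) ∈ ((⊤ : G.Subgraph).deleteVerts X).verts),
      (⟨⟨x, h1⟩, h2⟩ : ((⊤ : G.Subgraph).deleteVerts X).verts) ∈ C.supp := by
    intro C x
    simp only [hSC, Set.mem_toFinset, Set.mem_image]
    constructor
    · rintro ⟨⟨⟨w, hw1⟩, hw2⟩, h1, rfl⟩
      exact ⟨hw1, hw2, h1⟩
    · rintro ⟨h1, h2, h3⟩
      exact ⟨⟨⟨x, h1⟩, h2⟩, h3, rfl⟩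
  have cardSC : ∀ C : H.ConnectedComponent, (SC C).card = C.supp.ncard := by
    intro C
    rw [hSC, ← Set.ncard_image_of_injective _ inj, Set.ncard_eq_toFinset_card']
  set XV : Finset V := insert v (X.toFinset.image Subtype.val) with hXV
  have hXVcard : XV.card ≤ X.ncard + 1 := by
    have h1 : (X.toFinset.image Subtype.val).card ≤ X.ncard := by
      rw [Set.ncard_eq_toFinset_card']
      exact Finset.card_image_le
    exact (Finset.card_insert_le _ _).trans (by omega)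
  have key : ∀ (C : H.ConnectedComponent), ∀ a ∈ SC C, ∀ b ∈ S, b ∉ SC C → q a b ≠ 0 →
      b ∈ XV := by
    intro C a ha b hb hbC hab
    by_contra hbX
    obtain ⟨ha1, ha2, ha3⟩ := (memSC C a).1 ha
    have hbv : b ≠ v := fun e => hbX (by rw [hXV, e]; exact Finset.mem_insert_self _ _)
    have hb1 : b ∈ {x | x ∈ S ∧ x ≠ v} := ⟨hb, hbv⟩
    have hbX' : (⟨b, hb1⟩ : {x | x ∈ S ∧ x ≠ v}) ∉ X := by
      intro hh
      apply hbX
      rw [hXV]
      refine Finset.mem_insert_of_mem (Finset.mem_image.2 ⟨⟨b, hb1⟩, Set.mem_toFinset.2 hh, rfl⟩)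
    have hb2 : (⟨b, hb1⟩ : {x | x ∈ S ∧ x ≠ v}) ∈ ((⊤ : G.Subgraph).deleteVerts X).verts := by
      simp only [SimpleGraph.Subgraph.deleteVerts_verts, SimpleGraph.Subgraph.verts_top]
      exact ⟨Set.mem_univ _, hbX'⟩
    have haX' : (⟨a, ha1⟩ : {x | x ∈ S ∧ x ≠ v}) ∉ X := by
      simp only [SimpleGraph.Subgraph.deleteVerts_verts, SimpleGraph.Subgraph.verts_top] at ha2
      exact ha2.2
    have hadj : G.Adj ⟨a, ha1⟩ ⟨b, hb1⟩ := J_adj_of h ha1.1 hb hab
    have hH' : H.Adj ⟨⟨a, ha1⟩, ha2⟩ ⟨⟨b, hb1⟩, hb2⟩ := by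
      rw [hH, SimpleGraph.Subgraph.coe_adj, SimpleGraph.Subgraph.deleteVerts_adj]
      exact ⟨Set.mem_univ _, haX', Set.mem_univ _, hbX', hadj⟩
    apply hbC
    rw [memSC]
    refine ⟨hb1, hb2, ?_⟩
    rw [SimpleGraph.ConnectedComponent.mem_supp_iff] at ha3 ⊢
    rw [← ha3]
    exact (SimpleGraph.ConnectedComponent.connectedComponentMk_eq_of_adj hH').symm
  have disj : ∀ C C' x, x ∈ SC C → x ∈ SC C' → C = C' := by
    intro C C' x h h'
    obtain ⟨_, _, h2⟩ := (memSC C x).1 h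
    obtain ⟨_, _, h2'⟩ := (memSC C' x).1 h'
    rw [SimpleGraph.ConnectedComponent.mem_supp_iff] at h2 h2'
    rw [← h2, ← h2']
  have hsubS : ∀ C, SC C ⊆ S := fun C x hx => ((memSC C x).1 hx).1.1
  obtain ⟨Cs, hCsdef⟩ : ∃ Cs : Finset H.ConnectedComponent, Cs = H.oddComponents.toFinset := ⟨_, rfl⟩
  have hCs : H.oddComponents.ncard = Cs.card := by
    rw [Set.ncard_eq_toFinset_card', hCsdef]
  have hmain : s * Cs.card ≤ s * XV.card + H76FC.cut q S := by
    refine count h Cs SC XV ?_ hsubS hv ?_ (fun C _ C' _ x hx hx' => disj C C' x hx hx') key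
    · intro C hC
      rw [cardSC]
      rw [hCsdef] at hC
      have h0 : C ∈ H.oddComponents := Set.mem_toFinset.1 hC
      exact h0
    · intro C _ hvC
      exact ((memSC C v).1 hvC).1.2 rfl
  have hlt := h.lt
  have hCX : Cs.card = X.ncard + 1 := by
    rw [hCs] at hviol
    have h1 : s * XV.card ≤ s * (X.ncard + 1) := Nat.mul_le_mul_left _ hXVcard
    have h2 : s * Cs.card < s * (X.ncard + 2) := by
      have : s * (X.ncard + 2) = s * (X.ncard + 1) + s := by ring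
      omega
    have h3 : Cs.card < X.ncard + 2 := Nat.lt_of_mul_lt_mul_left h2
    omega
  -- parity
  have hpar := SimpleGraph.odd_ncard_oddComponents (G := H)
  rw [hCs, hCX] at hpar
  have hcardW : Nat.card {x | x ∈ S ∧ x ≠ v} = S.card - 1 := by
    have e : ({x | x ∈ S ∧ x ≠ v} : Set V) = ↑(S.erase v) := by
      ext x
      simp only [Finset.coe_erase, Set.mem_sdiff, Finset.mem_coe, Set.mem_singleton_iff,
        Set.mem_ofPred_eq]
    rw [Nat.card_coe_set_eq, e, Set.ncard_coe_finset, Finset.card_erase_of_mem hv]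
  have hcardH : Nat.card (((⊤ : G.Subgraph).deleteVerts X).verts) + X.ncard = S.card - 1 := by
    rw [← hcardW]
    have e : ((⊤ : G.Subgraph).deleteVerts X).verts = Xᶜ := by
      ext x
      simp only [SimpleGraph.Subgraph.deleteVerts_verts, SimpleGraph.Subgraph.verts_top,
        Set.mem_sdiff, Set.mem_univ, true_and, Set.mem_compl_iff]
    rw [e]
    have := Set.ncard_add_ncard_compl X
    rw [← this, add_comm]
    rfl
  obtain ⟨m, hm⟩ := h.odd
  rcases Nat.even_or_odd X.ncard with ⟨a, ha⟩ | ⟨a, ha⟩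
  · have h1 : Odd (X.ncard + 1) := ⟨a, by omega⟩
    obtain ⟨b, hb⟩ := hpar.1 h1
    omega
  · have h1 : Odd (Nat.card (((⊤ : G.Subgraph).deleteVerts X).verts)) := ⟨m - a - 1, by omega⟩
    obtain ⟨b, hb⟩ := hpar.2 h1
    omega

theorem MinV.crit {s : ℕ} {q : V → V → ℕ} {S : Finset V} (h : MinV s q S) : Crit (J q S) S := by
  classical
  intro v hv
  obtain ⟨M, hM⟩ := (SimpleGraph.tutte (G := (J q S).induce {x | x ∈ S ∧ x ≠ v})).2
    (fun X => h.no_tutte hv X)
  have hch : ∀ x : {x | x ∈ S ∧ x ≠ v}, ∃ y, M.Adj x y := fun x => (hM.1 (hM.2 x)).exists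
  choose g hg using hch
  have hgg : ∀ x, g (g x) = x := by
    intro x
    have h1 := hg (g x)
    have h2 := (hg x).symm
    exact (hM.1 (hM.2 (g x))).unique h1 h2
  refine ⟨fun x => if hx : x ∈ S ∧ x ≠ v then (g ⟨x, hx⟩).1 else x, ?_⟩
  intro x hx hxv
  have hx' : x ∈ S ∧ x ≠ v := ⟨hx, hxv⟩
  have h1 := (g ⟨x, hx'⟩).2
  simp only [dif_pos hx']
  refine ⟨h1.1, h1.2, ?_, ?_⟩
  · have h2 : (g ⟨x, hx'⟩).1 ∈ S ∧ (g ⟨x, hx'⟩).1 ≠ v := h1
    rw [dif_pos h2]
    have : (⟨(g ⟨x, hx'⟩).1, h2⟩ : {x | x ∈ S ∧ x ≠ v}) = g ⟨x, hx'⟩ := rfl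
    rw [this, hgg]
  · exact M.adj_sub (hg ⟨x, hx'⟩)

end Pool.Agent.TH583.HB
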