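import Pool.Agent.H76R2.FC.Basic

/-!
# Minimal odd cuts of small capacity in regular multigraphs
-/

set_option autoImplicit false

namespace Pool.Agent.TH583.HB

open Finset H76FC

variable {V : Type} [Fintype V] [DecidableEq V]

/-- number of edges between `A` and `B` -/
def E (q : V → V → ℕ) (A B : Finset V) : ℕ := ∑ a ∈ A, ∑ b ∈ B, q a b

theorem E_symm {q : V → V → ℕ} (hs : ∀ u v, q u v = q v u) (A B : Finset V) :
    E q A B = E q B A := by
  unfold E
  rw [Finset.sum_comm]
  exact Finset.sum_congr rfl fun a _ => Finset.sum_congr rfl fun b _ => hs _ _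

theorem E_union_left (q : V → V → ℕ) {A B : Finset V} (C : Finset V) (h : Disjoint A B) :
    E q (A ∪ B) C = E q A C + E q B C := Finset.sum_union h

theorem E_union_right (q : V → V → ℕ) (A : Finset V) {B C : Finset V} (h : Disjoint B C) :
    E q A (B ∪ C) = E q A B + E q A C := by
  unfold E
  rw [← Finset.sum_add_distrib]
  exact Finset.sum_congr rfl fun a _ => Finset.sum_union h

theorem E_mono (q : V → V → ℕ) {A A' B B' : Finset V} (hA : A ⊆ A') (hB : B ⊆ B') :
    E q A B ≤ E q A' B' := by
  unfold E
  calc ∑ a ∈ A, ∑ b ∈ B, q a b ≤ ∑ a ∈ A, ∑ b ∈ B', q a b :=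
        Finset.sum_le_sum fun a _ => Finset.sum_le_sum_of_subset hB
    _ ≤ _ := Finset.sum_le_sum_of_subset hA

theorem E_zero {q : V → V → ℕ} {A B : Finset V} (h : ∀ a ∈ A, ∀ b ∈ B, q a b = 0) :
    E q A B = 0 := Finset.sum_eq_zero fun a ha => Finset.sum_eq_zero fun b hb => h a ha b hb

theorem cut_E (q : V → V → ℕ) (A : Finset V) : cut q A = E q A Aᶜ := rfl

theorem E_univ {q : V → V → ℕ} {s : ℕ} (hr : ∀ v, ∑ w, q v w = s) (A : Finset V) :
    E q A univ = s * A.card := by
  unfold E
  rw [Finset.sum_congr rfl fun a _ => hr a, Finset.sum_const, smul_eq_mul, mul_comm]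

theorem E_add_compl {q : V → V → ℕ} {s : ℕ} (hr : ∀ v, ∑ w, q v w = s) (A B : Finset V) :
    E q A B + E q A Bᶜ = s * A.card := by
  rw [← E_union_right q A disjoint_compl_right, Finset.union_compl, E_univ hr]

/-- `q` is `s`-regular, and `S` is a minimal odd set whose cut has fewer than `s` edges. -/
structure MinV (s : ℕ) (q : V → V → ℕ) (S : Finset V) : Prop where
  loopless : ∀ v, q v v = 0
  symm : ∀ u v, q u v = q v u
  reg : ∀ v, ∑ w, q v w = s
  odd : Odd S.card
  lt : cut q S < s
  ge : ∀ Y ⊂ S, Odd Y.card → s ≤ cut q Y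

/-- perfect `2`-matchings: an injective map of `S` into itself along edges -/
def Spanned {W : Type} (H : SimpleGraph W) (S : Set W) : Prop :=
  ∃ f : W → W, Set.InjOn f S ∧ ∀ v ∈ S, f v ∈ S ∧ H.Adj v (f v)

/-- Hall's theorem -/
theorem spanned {s : ℕ} {q : V → V → ℕ} (hs : ∀ u v, q u v = q v u) (hr : ∀ v, ∑ w, q v w = s)
    {S : Finset V} (hlt : cut q S < s) :
    ∃ f : V → V, Set.InjOn f S ∧ ∀ v ∈ S, f v ∈ S ∧ 0 < q v (f v) := by
  classical
  have hall := (Finset.all_card_le_biUnion_card_iff_exists_injective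
    (fun v : {x // x ∈ S} => S.filter fun w => 0 < q v.1 w)).1 (by
    intro A
    set A' : Finset V := A.map (Function.Embedding.subtype _) with hA'
    set N : Finset V := A.biUnion fun v => S.filter fun w => 0 < q v.1 w with hN
    have hcard : A'.card = A.card := Finset.card_map _
    have hsub : A' ⊆ S := by
      intro x hx
      rw [hA', Finset.mem_map] at hx
      obtain ⟨y, _, rfl⟩ := hx
      exact y.2
    have h1 := E_add_compl hr A' S
    have h2 : E q A' Sᶜ ≤ cut q S := by
      rw [cut_E]
      exact E_mono q hsub (Finset.Subset.refl _)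
    have h3 : E q A' S ≤ E q A' N := by
      unfold E
      refine Finset.sum_le_sum fun a ha => ?_
      rw [hA', Finset.mem_map] at ha
      obtain ⟨y, hy, rfl⟩ := ha
      have : ∑ b ∈ S, q y.1 b = ∑ b ∈ S.filter (fun w => 0 < q y.1 w), q y.1 b := by
        rw [Finset.sum_filter]
        refine Finset.sum_congr rfl fun b _ => ?_
        split_ifs with h
        · rfl
        · omega
      show ∑ b ∈ S, q y.1 b ≤ ∑ b ∈ N, q y.1 b
      rw [this]
      refine Finset.sum_le_sum_of_subset ?_
      exact Finset.subset_biUnion_of_mem (fun v : {x // x ∈ S} => S.filter fun w => 0 < q v.1 w) hy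
    have h4 : E q A' N ≤ s * N.card := by
      rw [E_symm hs, ← E_univ hr N]
      exact E_mono q (Finset.Subset.refl _) (Finset.subset_univ _)
    rw [← hcard]
    by_contra hlt'
    have h5 : N.card + 1 ≤ A'.card := by omega
    have h6 : s * (N.card + 1) ≤ s * A'.card := Nat.mul_le_mul_left _ h5
    rw [Nat.mul_add, Nat.mul_one] at h6
    omega)
  obtain ⟨g, hg1, hg2⟩ := hall
  refine ⟨fun v => if h : v ∈ S then g ⟨v, h⟩ else v, ?_, ?_⟩
  · intro a ha b hb hab
    have ha' : a ∈ S := ha
    have hb' : b ∈ S := hb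
    simp only [ha', hb', dif_pos] at hab
    have := hg1 hab
    exact congrArg Subtype.val this
  · intro v hv
    have := hg2 ⟨v, hv⟩
    simp only [hv, dif_pos]
    exact ⟨(Finset.mem_filter.1 this).1, (Finset.mem_filter.1 this).2⟩

/-- no separation of order `0` -/
theorem MinV.sep0 {s : ℕ} {q : V → V → ℕ} {S : Finset V} (h : MinV s q S) (D R : Finset V)
    (hDR : Disjoint D R) (hS : D ∪ R = S) (hno : E q D R = 0) (hD : D.Nonempty)
    (hR : R.Nonempty) : False := by
  have key : ∀ D R : Finset V, Disjoint D R → D ∪ R = S → E q D R = 0 → R.Nonempty →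
      Odd D.card → False := by
    intro D R hDR hS hno hR hodd
    have hss : D ⊂ S := by
      rw [← hS]
      refine Finset.ssubset_iff_subset_ne.2 ⟨Finset.subset_union_left, ?_⟩
      intro he
      obtain ⟨x, hx⟩ := hR
      have : x ∈ D := by rw [he]; exact Finset.mem_union_right _ hx
      exact Finset.disjoint_left.1 hDR this hx
    have h1 := h.ge D hss hodd
    have h2 : cut q D ≤ cut q S := by
      have e : Dᶜ = R ∪ Sᶜ := by
        ext x
        have hd : x ∈ D → x ∉ R := fun hx => Finset.disjoint_left.1 hDR hx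
        simp only [Finset.mem_compl, Finset.mem_union, ← hS]
        tauto
      have hd : Disjoint R Sᶜ := by
        rw [Finset.disjoint_left]
        intro x hx hx'
        rw [Finset.mem_compl, ← hS] at hx'
        exact hx' (Finset.mem_union_right _ hx)
      rw [cut_E, e, E_union_right q D hd, hno, zero_add, cut_E]
      exact E_mono q hss.1 (Finset.Subset.refl _)
    have := h.lt
    omega
  have hc : D.card + R.card = S.card := by rw [← hS, Finset.card_union_of_disjoint hDR]
  obtain ⟨m, hm⟩ := h.odd
  rcases Nat.even_or_odd D.card with he | ho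
  · obtain ⟨n, hn⟩ := he
    exact key R D hDR.symm (by rw [Finset.union_comm]; exact hS)
      (by rw [E_symm h.symm]; exact hno) hD ⟨m - n, by omega⟩
  · exact key D R hDR hS hno hR ho

/-- no separation of order `1` -/
theorem MinV.sep1 {s : ℕ} {q : V → V → ℕ} {S : Finset V} (h : MinV s q S) (D R : Finset V) (w : V)
    (hwD : w ∉ D) (hwR : w ∉ R) (hDR : Disjoint D R) (hS : insert w (D ∪ R) = S)
    (hno : E q D R = 0) (hD : D.Nonempty) (hR : R.Nonempty) : False := by
  set C : Finset V := Sᶜ with hC
  have hwS : w ∈ S := by rw [← hS]; exact Finset.mem_insert_self _ _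
  have hDS : D ⊆ S := by
    rw [← hS]
    exact fun x hx => Finset.mem_insert_of_mem (Finset.mem_union_left _ hx)
  have hRS : R ⊆ S := by
    rw [← hS]
    exact fun x hx => Finset.mem_insert_of_mem (Finset.mem_union_right _ hx)
  have hwC : w ∉ C := by rw [hC, Finset.mem_compl]; exact fun h' => h' hwS
  have hDC : Disjoint D C := by
    rw [Finset.disjoint_left]; intro x hx hx'
    rw [hC, Finset.mem_compl] at hx'; exact hx' (hDS hx)
  have hRC : Disjoint R C := by
    rw [Finset.disjoint_left]; intro x hx hx'
    rw [hC, Finset.mem_compl] at hx'; exact hx' (hRS hx)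
  have hall : ∀ x, x = w ∨ x ∈ D ∨ x ∈ R ∨ x ∈ C := by
    intro x
    by_cases hx : x ∈ S
    · rw [← hS, Finset.mem_insert, Finset.mem_union] at hx
      tauto
    · right; right; right; rw [hC, Finset.mem_compl]; exact hx
  have hd1 : ∀ x ∈ D, x ∉ R := fun x hx => Finset.disjoint_left.1 hDR hx
  have hd2 : ∀ x ∈ D, x ∉ C := fun x hx => Finset.disjoint_left.1 hDC hx
  have hd3 : ∀ x ∈ R, x ∉ C := fun x hx => Finset.disjoint_left.1 hRC hx
  have hno' : E q R D = 0 := by rw [E_symm h.symm]; exact hno
  have dw : ∀ X : Finset V, w ∉ X → Disjoint {w} X := fun X hX => by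
    rw [Finset.disjoint_singleton_left]; exact hX
  -- degree of w
  have hdeg : E q {w} D + E q {w} R + E q {w} C = s := by
    have h1 : E q {w} univ = s := by rw [E_univ h.reg, Finset.card_singleton, mul_one]
    have e : (univ : Finset V) = {w} ∪ (D ∪ (R ∪ C)) := by
      ext x
      have := hall x
      simp only [Finset.mem_univ, Finset.mem_union, Finset.mem_singleton, true_iff]
      exact this
    have hl : E q {w} {w} = 0 := by simp [E, h.loopless]
    rw [e, E_union_right, E_union_right, E_union_right, hl] at h1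
    · omega
    · exact hRC
    · rw [Finset.disjoint_union_right]; exact ⟨hDR, hDC⟩
    · refine dw _ ?_
      simp only [Finset.mem_union, not_or]; exact ⟨hwD, hwR, hwC⟩
  have hcS : cut q S = E q {w} C + E q D C + E q R C := by
    have e : S = {w} ∪ (D ∪ R) := by rw [← hS]; rfl
    rw [cut_E, ← hC]
    conv_lhs => rw [e]
    rw [E_union_left, E_union_left]
    · omega
    · exact hDR
    · refine dw _ ?_
      simp only [Finset.mem_union, not_or]; exact ⟨hwD, hwR⟩
  have hcD : cut q D = E q {w} D + E q D C := by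
    have e : Dᶜ = {w} ∪ (R ∪ C) := by
      ext x
      have h1 := hall x
      have h2 := hd1 x
      have h3 := hd2 x
      simp only [Finset.mem_compl, Finset.mem_union, Finset.mem_singleton]
      constructor
      · intro hx; tauto
      · rintro (rfl | hx | hx) hxD
        · exact hwD hxD
        · exact h2 hxD hx
        · exact h3 hxD hx
    rw [cut_E, e, E_union_right, E_union_right, hno, E_symm h.symm D {w}]
    · omega
    · exact hRC
    · refine dw _ ?_
      simp only [Finset.mem_union, not_or]; exact ⟨hwR, hwC⟩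
  have hcR : cut q R = E q {w} R + E q R C := by
    have e : Rᶜ = {w} ∪ (D ∪ C) := by
      ext x
      have h1 := hall x
      have h2 := hd1 x
      have h3 := hd3 x
      simp only [Finset.mem_compl, Finset.mem_union, Finset.mem_singleton]
      constructor
      · intro hx; tauto
      · rintro (rfl | hx | hx) hxR
        · exact hwR hxR
        · exact h2 hx hxR
        · exact h3 hxR hx
    rw [cut_E, e, E_union_right, E_union_right, hno', E_symm h.symm R {w}]
    · omega
    · exact hDC
    · refine dw _ ?_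
      simp only [Finset.mem_union, not_or]; exact ⟨hwD, hwC⟩
  have hcwD : cut q (insert w D) = E q {w} R + E q {w} C + E q D C := by
    have e : (insert w D)ᶜ = R ∪ C := by
      ext x
      have h1 := hall x
      have h2 := hd1 x
      have h3 := hd2 x
      simp only [Finset.mem_compl, Finset.mem_union, Finset.mem_insert, not_or]
      constructor
      · rintro ⟨_, _⟩; tauto
      · rintro (hx | hx)
        · exact ⟨fun he => hwR (he ▸ hx), fun hxD => h2 hxD hx⟩
        · exact ⟨fun he => hwC (he ▸ hx), fun hxD => h3 hxD hx⟩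
    have e2 : insert w D = {w} ∪ D := rfl
    rw [cut_E, e, e2, E_union_right q _ hRC, E_union_left q R (dw D hwD),
      E_union_left q C (dw D hwD), hno]
    omega
  have hcwR : cut q (insert w R) = E q {w} D + E q {w} C + E q R C := by
    have e : (insert w R)ᶜ = D ∪ C := by
      ext x
      have h1 := hall x
      have h2 := hd1 x
      have h3 := hd3 x
      simp only [Finset.mem_compl, Finset.mem_union, Finset.mem_insert, not_or]
      constructor
      · rintro ⟨_, _⟩; tauto
      · rintro (hx | hx)
        · exact ⟨fun he => hwD (he ▸ hx), fun hxR => h2 hx hxR⟩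
        · exact ⟨fun he => hwC (he ▸ hx), fun hxR => h3 hxR hx⟩
    have e2 : insert w R = {w} ∪ R := rfl
    rw [cut_E, e, e2, E_union_right q _ hDC, E_union_left q D (dw R hwR),
      E_union_left q C (dw R hwR), hno']
    omega
  have hlt := h.lt
  have hcard : D.card + R.card + 1 = S.card := by
    rw [← hS, Finset.card_insert_of_notMem, Finset.card_union_of_disjoint hDR]
    simp only [Finset.mem_union, not_or]; exact ⟨hwD, hwR⟩
  obtain ⟨m, hm⟩ := h.odd
  have ssub : ∀ X : Finset V, X ⊆ S → (∃ x ∈ S, x ∉ X) → X ⊂ S := by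
    intro X hX ⟨x, hx, hx'⟩
    exact Finset.ssubset_iff_subset_ne.2 ⟨hX, fun he => hx' (he ▸ hx)⟩
  obtain ⟨d0, hd0⟩ := hD
  obtain ⟨r0, hr0⟩ := hR
  rcases Nat.even_or_odd D.card with he | ho
  · obtain ⟨n, hn⟩ := he
    have h1 := h.ge (insert w D) (ssub _ (Finset.insert_subset hwS hDS) ⟨r0, hRS hr0, by
      rw [Finset.mem_insert, not_or]
      exact ⟨fun he => hwR (he ▸ hr0), fun hx => hd1 _ hx hr0⟩⟩)
      ⟨n, by rw [Finset.card_insert_of_notMem hwD]; omega⟩
    have h2 := h.ge (insert w R) (ssub _ (Finset.insert_subset hwS hRS) ⟨d0, hDS hd0, by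
      rw [Finset.mem_insert, not_or]
      exact ⟨fun he => hwD (he ▸ hd0), fun hx => hd1 _ hd0 hx⟩⟩)
      ⟨m - n, by rw [Finset.card_insert_of_notMem hwR]; omega⟩
    omega
  · obtain ⟨n, hn⟩ := ho
    have h1 := h.ge D (ssub _ hDS ⟨w, hwS, hwD⟩) ⟨n, hn⟩
    have h2 := h.ge R (ssub _ hRS ⟨w, hwS, hwR⟩) ⟨m - n - 1, by omega⟩
    omega

/-- a minimal violated set is not bipartite -/
theorem MinV.not_bip {s : ℕ} {q : V → V → ℕ} {S : Finset V} (h : MinV s q S) (A B : Finset V)
    (hAB : Disjoint A B) (hS : A ∪ B = S) (hA : E q A A = 0) (hB : E q B B = 0) : False := by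
  have hd : Disjoint S Sᶜ := disjoint_compl_right
  have e1 := E_add_compl h.reg A S
  have e2 := E_add_compl h.reg B S
  have e3 : E q A S = E q A B := by rw [← hS, E_union_right q A hAB, hA, zero_add]
  have e4 : E q B S = E q A B := by
    rw [← hS, E_union_right q B hAB, hB, add_zero, E_symm h.symm]
  have e5 : cut q S = E q A Sᶜ + E q B Sᶜ := by
    rw [cut_E]
    conv_lhs => rw [← hS]
    rw [E_union_left q _ hAB, hS]
  have hlt := h.lt
  have hc : A.card + B.card = S.card := by rw [← hS, Finset.card_union_of_disjoint hAB]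
  obtain ⟨m, hm⟩ := h.odd
  rw [e3] at e1
  rw [e4] at e2
  rcases lt_trichotomy A.card B.card with hl | hl | hl
  · have : s * (A.card + 1) ≤ s * B.card := Nat.mul_le_mul_left _ hl
    rw [Nat.mul_add, Nat.mul_one] at this
    omega
  · omega
  · have : s * (B.card + 1) ≤ s * A.card := Nat.mul_le_mul_left _ hl
    rw [Nat.mul_add, Nat.mul_one] at this
    omega

/-- a minimal violated set contains no three independent vertices with two neighbours -/
theorem MinV.no_indep {s : ℕ} {q : V → V → ℕ} {S : Finset V} (h : MinV s q S) (I T : Finset V)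
    (hIT : Disjoint I T) (hS : I ∪ T = S) (hI : E q I I = 0) (h3 : T.card + 1 ≤ I.card) : False := by
  have e1 := E_add_compl h.reg I S
  have e3 : E q I S = E q I T := by rw [← hS, E_union_right q I hIT, hI, zero_add]
  have e4 : E q I T ≤ s * T.card := by
    rw [E_symm h.symm, ← E_univ h.reg T]
    exact E_mono q (Finset.Subset.refl _) (Finset.subset_univ _)
  have e5 : E q I Sᶜ ≤ cut q S := by
    rw [cut_E]
    refine E_mono q ?_ (Finset.Subset.refl _)
    rw [← hS]; exact Finset.subset_union_left
  have hlt := h.lt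
  have : s * (T.card + 1) ≤ s * I.card := Nat.mul_le_mul_left _ h3
  rw [Nat.mul_add, Nat.mul_one] at this
  omega

end Pool.Agent.TH583.HB
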