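import Pool.Agent.TH583.HB.Cut

/-!
# Minimal violated odd cuts contain odd cycles of length at least five
-/

set_option autoImplicit false
set_option linter.unusedSectionVars false

namespace Pool.Agent.TH583.HB

open Finset H76FC SimpleGraph

/-- an odd cycle of `H` of length at least five with all vertices in `S` -/
def OddCyc {W : Type} (H : SimpleGraph W) (S : Finset W) : Prop :=
  ∃ (v : W) (c : H.Walk v v), c.IsCycle ∧ Odd c.length ∧ 5 ≤ c.length ∧ ∀ x ∈ c.support, x ∈ S

section walks

variable {V : Type} {G : SimpleGraph V}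

/-- there is a walk of length `n` from `u` to `v` -/
def HW (G : SimpleGraph V) (n : ℕ) (u v : V) : Prop := ∃ p : G.Walk u v, p.length = n

structure MinOdd (G : SimpleGraph V) (g : ℕ) (c : ℕ → V) : Prop where
  adj : ∀ i < g, G.Adj (c i) (c (i+1))
  closed : c g = c 0
  odd : Odd g
  min : ∀ n, Odd n → n < g → ∀ v, ¬ HW G n v v

lemma HW.refl (u : V) : HW G 0 u u := ⟨SimpleGraph.Walk.nil, rfl⟩

lemma HW.of_adj {u v : V} (h : G.Adj u v) : HW G 1 u v :=
  ⟨SimpleGraph.Walk.cons h SimpleGraph.Walk.nil, rfl⟩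

lemma HW.trans {a b : ℕ} {u v w : V} (h1 : HW G a u v) (h2 : HW G b v w) : HW G (a + b) u w := by
  obtain ⟨p, hp⟩ := h1
  obtain ⟨q, hq⟩ := h2
  exact ⟨p.append q, by rw [SimpleGraph.Walk.length_append, hp, hq]⟩

lemma HW.symm {a : ℕ} {u v : V} (h1 : HW G a u v) : HW G a v u := by
  obtain ⟨p, hp⟩ := h1
  exact ⟨p.reverse, by rw [SimpleGraph.Walk.length_reverse, hp]⟩

lemma HW_seg (c : ℕ → V) (g : ℕ) (hc : ∀ i < g, G.Adj (c i) (c (i+1))) (i : ℕ) (d : ℕ)
    (h : i + d ≤ g) : HW G d (c i) (c (i + d)) := by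
  induction d with
  | zero => exact HW.refl _
  | succ d ih =>
    have h1 := ih (by omega)
    exact h1.trans (HW.of_adj (hc (i+d) (by omega)))

namespace MinOdd
variable {g : ℕ} {c : ℕ → V}

lemma arc1 (M : MinOdd G g c) {i j : ℕ} (hij : i ≤ j) (hj : j ≤ g) : HW G (j - i) (c i) (c j) := by
  have w1 := HW_seg c g M.adj i (j - i) (by omega)
  rwa [show i + (j - i) = j by omega] at w1

lemma arc2 (M : MinOdd G g c) {i j : ℕ} (hij : i ≤ j) (hj : j ≤ g) :
    HW G (g - (j - i)) (c i) (c j) := by
  have w2 := M.arc1 hj le_rfl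
  rw [M.closed] at w2
  have w3 := M.arc1 (Nat.zero_le i) (hij.trans hj)
  have w4 := (w2.trans w3).symm
  rwa [show g - j + (i - 0) = g - (j - i) by omega] at w4

lemma inj (M : MinOdd G g c) {i j : ℕ} (hij : i < j) (hj : j < g) : c i ≠ c j := by
  intro heq
  have w1 := M.arc1 hij.le hj.le
  have w2 := M.arc2 hij.le hj.le
  rw [← heq] at w1 w2
  obtain ⟨b, hb⟩ := M.odd
  rcases Nat.even_or_odd (j - i) with ⟨a, ha⟩ | ho
  · exact M.min (g - (j - i)) ⟨b - a, by omega⟩ (by omega) _ w2
  · exact M.min (j - i) ho (by omega) _ w1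

end MinOdd

/-- a graph which is not `2`-colourable has an odd cycle -/
theorem exists_odd_cycle (h : ¬ G.Colorable 2) :
    ∃ (v : V) (p : G.Walk v v), p.IsCycle ∧ Odd p.length := by
  classical
  rw [SimpleGraph.two_colorable_iff_forall_loop_even] at h
  push Not at h
  obtain ⟨u, w, hw⟩ := h
  have hex : ∃ n, Odd n ∧ ∃ v, HW G n v v := ⟨w.length, by simpa using hw, u, w, rfl⟩
  obtain ⟨hodd, v', p, hp⟩ := Nat.find_spec hex
  set g := Nat.find hex with hg
  have M : MinOdd G g p.getVert := by
    constructor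
    · intro i hi
      exact p.adj_getVert_succ (by rw [hp]; exact hi)
    · rw [← hp]; simp
    · exact hodd
    · intro n hn hlt v hv
      exact Nat.find_min hex hlt ⟨hn, v, hv⟩
  refine ⟨v', p, ?_, by rw [hp]; exact M.odd⟩
  have h3g : 3 ≤ g := by
    obtain ⟨b, hb⟩ := M.odd
    rcases Nat.lt_or_ge g 3 with h | h
    · have hg1 : g = 1 := by omega
      have := M.adj 0 (by omega)
      have h2 := M.closed
      rw [hg1] at h2
      simp only [zero_add] at this
      rw [h2] at this
      exact absurd rfl this.ne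
    · exact h
  rw [SimpleGraph.Walk.isCycle_iff_isPath_tail_and_le_length]
  have hnil : ¬ p.Nil := by
    intro hn
    have := SimpleGraph.Walk.length_eq_zero_iff.mpr hn
    omega
  have htl := SimpleGraph.Walk.length_tail_add_one hnil
  refine ⟨?_, by omega⟩
  rw [← SimpleGraph.Walk.IsPath.getVert_injOn_iff]
  intro a ha b hb hab
  simp only [Set.mem_ofPred_eq] at ha hb
  rw [SimpleGraph.Walk.getVert_tail, SimpleGraph.Walk.getVert_tail] at hab
  have key : ∀ a b, a < b → b ≤ p.tail.length → p.getVert (a+1) ≠ p.getVert (b+1) := by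
    intro a b hab hb
    rcases Nat.lt_or_ge (b+1) g with h1 | h1
    · exact M.inj (by omega) h1
    · have hbl : b + 1 = g := by omega
      rw [hbl, M.closed]
      exact (M.inj (by omega) (by omega)).symm
  by_contra hne
  rcases lt_or_gt_of_ne hne with h1 | h1
  · exact key a b h1 hb hab
  · exact key b a h1 ha hab.symm

/-- a path outside the triangle `t t' t''` gives an odd cycle -/
theorem path_cycle {a b t t' t'' : V} (p : G.Walk a b) (hp : p.IsPath) (hab : a ≠ b)
    (h1 : t ∉ p.support) (h2 : t' ∉ p.support) (h3 : t'' ∉ p.support)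
    (hta : G.Adj t a) (htb : G.Adj b t') (h12 : G.Adj t' t) (h23 : G.Adj t' t'')
    (h31 : G.Adj t'' t) :
    ∃ (c : G.Walk t t), c.IsCycle ∧ Odd c.length ∧ 5 ≤ c.length := by
  have hl : 1 ≤ p.length := by
    rcases Nat.eq_zero_or_pos p.length with h | h
    · exact absurd (SimpleGraph.Walk.eq_of_length_eq_zero h) hab
    · exact h
  have ha : a ∈ p.support := p.start_mem_support
  have hb : b ∈ p.support := p.end_mem_support
  have p2 : (p.concat htb).IsPath := hp.concat h2 htb
  have ht2 : t ∉ (p.concat htb).support := by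
    rw [SimpleGraph.Walk.support_concat]
    simp only [List.concat_eq_append, List.mem_append, List.mem_singleton, not_or]
    exact ⟨h1, h12.ne'⟩
  have hat' : a ≠ t' := fun h => h2 (h ▸ ha)
  have hat'' : a ≠ t'' := fun h => h3 (h ▸ ha)
  rcases Nat.even_or_odd p.length with he | ho
  · have p3 : ((p.concat htb).concat h12).IsPath := p2.concat ht2 h12
    refine ⟨SimpleGraph.Walk.cons hta ((p.concat htb).concat h12), ?_, ?_, ?_⟩
    · rw [SimpleGraph.Walk.cons_isCycle_iff]
      refine ⟨p3, ?_⟩
      rw [SimpleGraph.Walk.edges_concat]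
      simp only [List.concat_eq_append, List.mem_append, List.mem_singleton, not_or]
      refine ⟨fun h => ht2 (SimpleGraph.Walk.fst_mem_support_of_mem_edges _ h), fun h => ?_⟩
      rw [Sym2.eq_iff] at h
      rcases h with ⟨h, h'⟩ | ⟨h, h'⟩
      · exact h12.ne' h
      · exact hat' h'
    · simp only [SimpleGraph.Walk.length_cons, SimpleGraph.Walk.length_concat]
      obtain ⟨m, hm⟩ := he
      exact ⟨m + 1, by omega⟩
    · simp only [SimpleGraph.Walk.length_cons, SimpleGraph.Walk.length_concat]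
      obtain ⟨m, hm⟩ := he
      omega
  · have ht'' : t'' ∉ (p.concat htb).support := by
      rw [SimpleGraph.Walk.support_concat]
      simp only [List.concat_eq_append, List.mem_append, List.mem_singleton, not_or]
      exact ⟨h3, h23.ne'⟩
    have p3 : ((p.concat htb).concat h23).IsPath := p2.concat ht'' h23
    have ht3 : t ∉ ((p.concat htb).concat h23).support := by
      rw [SimpleGraph.Walk.support_concat]
      simp only [List.concat_eq_append, List.mem_append, List.mem_singleton, not_or]
      exact ⟨ht2, h31.ne'⟩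
    have p4 : (((p.concat htb).concat h23).concat h31).IsPath := p3.concat ht3 h31
    refine ⟨SimpleGraph.Walk.cons hta (((p.concat htb).concat h23).concat h31), ?_, ?_, ?_⟩
    · rw [SimpleGraph.Walk.cons_isCycle_iff]
      refine ⟨p4, ?_⟩
      rw [SimpleGraph.Walk.edges_concat]
      simp only [List.concat_eq_append, List.mem_append, List.mem_singleton, not_or]
      refine ⟨fun h => ht3 (SimpleGraph.Walk.fst_mem_support_of_mem_edges _ h), fun h => ?_⟩
      rw [Sym2.eq_iff] at h
      rcases h with ⟨h, h'⟩ | ⟨h, h'⟩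
      · exact h31.ne' h
      · exact hat'' h'
    · simp only [SimpleGraph.Walk.length_cons, SimpleGraph.Walk.length_concat]
      obtain ⟨m, hm⟩ := ho
      exact ⟨m + 2, by omega⟩
    · simp only [SimpleGraph.Walk.length_cons, SimpleGraph.Walk.length_concat]
      omega

end walks

variable {V : Type} [Fintype V] [DecidableEq V]

/-- the support of `q` inside `S` -/
def J (q : V → V → ℕ) (S : Finset V) : SimpleGraph V where
  Adj a b := a ≠ b ∧ a ∈ S ∧ b ∈ S ∧ (0 < q a b ∨ 0 < q b a)
  symm := ⟨by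
    rintro a b ⟨h1, h2, h3, h4⟩
    exact ⟨h1.symm, h3, h2, h4.symm⟩⟩
  loopless := ⟨fun a h => h.1 rfl⟩

theorem J_support {q : V → V → ℕ} {S : Finset V} {v : V} (c : (J q S).Walk v v)
    (hc : 1 ≤ c.length) : ∀ x ∈ c.support, x ∈ S := by
  have hv : ∀ (a b : V) (p : (J q S).Walk a b), a ∈ S → ∀ x ∈ p.support, x ∈ S := by
    intro a b p
    induction p with
    | nil => intro h x hx; simp only [SimpleGraph.Walk.support_nil, List.mem_singleton] at hx; rwa [hx]
    | cons h p ih =>
      intro ha x hx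
      rw [SimpleGraph.Walk.support_cons, List.mem_cons] at hx
      rcases hx with rfl | hx
      · exact ha
      · exact ih h.2.2.1 x hx
  cases c with
  | nil => simp at hc
  | cons h p => exact hv _ _ _ h.2.1

theorem MinV.not_col {s : ℕ} {q : V → V → ℕ} {S : Finset V} (h : MinV s q S) :
    ¬ (J q S).Colorable 2 := by
  rintro ⟨col⟩
  have hz : ∀ i : Fin 2, ∀ a ∈ S.filter (fun v => col v = i), ∀ b ∈ S.filter (fun v => col v = i),
      q a b = 0 := by
    intro i a ha b hb
    rw [Finset.mem_filter] at ha hb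
    by_contra hne
    by_cases hab : a = b
    · rw [hab] at hne
      exact hne (h.loopless b)
    · exact col.valid (show (J q S).Adj a b from
        ⟨hab, ha.1, hb.1, Or.inl (Nat.pos_of_ne_zero hne)⟩) (ha.2.trans hb.2.symm)
  refine h.not_bip (S.filter fun v => col v = 0) (S.filter fun v => col v = 1) ?_ ?_
    (E_zero (hz 0)) (E_zero (hz 1))
  · rw [Finset.disjoint_left]
    intro x hx hx'
    rw [Finset.mem_filter] at hx hx'
    have := hx.2.symm.trans hx'.2
    exact absurd this (by decide)
  · ext x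
    simp only [Finset.mem_union, Finset.mem_filter]
    constructor
    · rintro (hx | hx) <;> exact hx.1
    · intro hx
      have : col x = 0 ∨ col x = 1 := by
        have h2 : ∀ i : Fin 2, i = 0 ∨ i = 1 := by decide
        exact h2 _
      rcases this with h | h
      · exact Or.inl ⟨hx, h⟩
      · exact Or.inr ⟨hx, h⟩

/-- a triangle and five-cycles through two vertices outside -/
theorem five {G : SimpleGraph V} {w a b q q' : V} (h1 : G.Adj q w) (h2 : G.Adj q a)
    (h3 : G.Adj q' w) (h4 : G.Adj q' b) (h5 : G.Adj a b) (hqq : q ≠ q') (hqb : q ≠ b)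
    (hqa : q' ≠ a) (hwa : w ≠ a) (hwb : w ≠ b) :
    ∃ (c : G.Walk w w), c.IsCycle ∧ Odd c.length ∧ 5 ≤ c.length := by
  refine ⟨SimpleGraph.Walk.cons h1.symm (SimpleGraph.Walk.cons h2 (SimpleGraph.Walk.cons h5
    (SimpleGraph.Walk.cons h4.symm (SimpleGraph.Walk.cons h3 SimpleGraph.Walk.nil)))), ?_,
    ⟨2, rfl⟩, le_refl 5⟩
  rw [SimpleGraph.Walk.cons_isCycle_iff]
  have n1 := h1.ne
  have n2 := h2.ne
  have n3 := h3.ne
  have n4 := h4.ne
  have n5 := h5.ne
  constructor
  · simp only [SimpleGraph.Walk.cons_isPath_iff, SimpleGraph.Walk.IsPath.nil,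
      SimpleGraph.Walk.support_cons, SimpleGraph.Walk.support_nil, List.mem_cons,
      List.mem_nil_iff, or_false, not_or, true_and]
    exact ⟨⟨⟨n3, n4.symm, hwb.symm⟩, n5, hqa.symm, hwa.symm⟩, n2, hqb, hqq, n1⟩
  · simp only [SimpleGraph.Walk.edges_cons, SimpleGraph.Walk.edges_nil, List.mem_cons,
      List.mem_nil_iff, or_false, Sym2.eq_iff, not_or, not_and]
    refine ⟨⟨fun h => absurd h.symm n1, fun h => absurd h hwa⟩, ⟨fun h => absurd h hwa, fun h => absurd h hwb⟩,
      ⟨fun h => absurd h hwb, fun h => absurd h.symm n3⟩, ⟨fun h => absurd h.symm n3, fun _ h => hqq h⟩⟩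

end Pool.Agent.TH583.HB
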