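import Pool.Agent.TH583.HB.Crit
import Pool.Agent.TH583.HB.Avg
import Pool.Agent.W315.LB.Stm
import Pool.Agent.H76R2.TY.Y13

/-!
# Heavy sets, and removing a perfect matching from an `r`-graph
-/

set_option autoImplicit false
set_option linter.unusedSectionVars false

namespace Pool.Agent.TH583.HB

open Finset H76FC H76TX H76TY

/-- `M` is (the involution of) a perfect matching of `H` -/
def PM {W : Type} (H : SimpleGraph W) (M : W → W) : Prop :=
  (∀ v, M (M v) = v) ∧ ∀ v, H.Adj v (M v)

open Classical in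
/-- the number of edges of the perfect matching `M` with exactly one end in `S` -/
noncomputable def cross {W : Type} (M : W → W) (S : Finset W) : ℕ := (S.filter fun v => M v ∉ S).card

/-- `S` is odd, `H[S]` is 2-connected, factor-critical and contains an odd cycle of length at least
five, and both `S` and its complement have perfect 2-matchings. -/
structure Heavy {W : Type} (H : SimpleGraph W) (S : Finset W) : Prop where
  odd : Odd S.card
  conn : ∀ w ∈ S, (H.induce {x | x ∈ S ∧ x ≠ w}).Connected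
  crit : Crit H S
  cyc : OddCyc H S
  span : Spanned H (S : Set W)
  span' : Spanned H (S : Set W)ᶜ

open Classical in
/-- the averaging condition -/
def Few (W : Type) [Fintype W] (H : SimpleGraph W) : Prop :=
  ∃ (k : Finset W → ℕ) (y : Finset W → ℝ), (∀ S, 0 ≤ y S) ∧
    (∀ M, PM H M → ∀ S, Heavy H S → cross M S ≤ 2 * k S + 3) ∧
    (∀ M, PM H M → ∀ S T, Heavy H S → Heavy H T → Disjoint S T → 5 ≤ cross M S → 5 ≤ cross M T →
      1 ≤ y S + y T) ∧
    ∑ S : Finset W, (if Heavy H S then y S * ((k S : ℝ) / (k S + 1)) else 0) < 3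

variable {V : Type} [Fintype V] [DecidableEq V]

theorem cross_out (M : V → V) (S : Finset V) : cross M S = out M S := by
  unfold cross out
  congr 1
  ext x
  simp

/-! ### the multigraph of a perfect matching -/

private def mg (M : V → V) : V → V → ℕ := fun u v => if M u = v then 1 else 0

private lemma minus_add {p : V → V → ℕ} {M : V → V}
    (h : PMof p M) (u v : V) : minus p M u v + mg M u v = p u v := by
  unfold minus mg
  split_ifs with huv
  · have := h.2 u
    rw [huv] at this
    omega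
  · rfl

private lemma cut_mg (M : V → V) (X : Finset V) : H76FC.cut (mg M) X = out M X := by
  unfold H76FC.cut out mg
  rw [Finset.card_filter]
  refine Finset.sum_congr rfl fun u _ => ?_
  rw [Finset.sum_ite_eq]
  simp only [Finset.mem_compl]

theorem cut_add {p : V → V → ℕ} {M : V → V} (h : PMof p M) (X : Finset V) :
    H76FC.cut (minus p M) X + out M X = H76FC.cut p X := by
  rw [← cut_mg]
  unfold H76FC.cut
  rw [← Finset.sum_add_distrib]
  refine Finset.sum_congr rfl fun u _ => ?_
  rw [← Finset.sum_add_distrib]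
  exact Finset.sum_congr rfl fun v _ => minus_add h u v

private lemma mg_symm {M : V → V} (h : H76FC.IsPM M) (u v : V) : mg M u v = mg M v u := by
  unfold mg
  have h1 : M u = v ↔ M v = u := by
    constructor
    · rintro rfl; exact h.1 u
    · rintro rfl; exact h.1 v
  simp only [h1]

private lemma mg_loop {M : V → V} (h : H76FC.IsPM M) (v : V) : mg M v v = 0 := by
  unfold mg
  rw [if_neg (h.2 v)]

private lemma mg_deg (M : V → V) (v : V) : ∑ w, mg M v w = 1 := by
  unfold mg
  rw [Finset.sum_ite_eq]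
  simp

theorem out_parity {M : V → V} (h : H76FC.IsPM M) (X : Finset V) : Even (out M X + X.card) := by
  have h1 := parity V (mg M) (fun _ => 1) X (mg_loop h) (mg_symm h) (mg_deg M)
  rw [cut_mg] at h1
  simpa using h1

theorem cut_parity {r : ℕ} {p : V → V → ℕ} (hR : RGraph r p) {X : Finset V} (hX : Odd X.card) :
    Even (H76FC.cut p X + r) := by
  have hp1 := parity V p (fun _ => r) X hR.loopless hR.symm hR.reg
  rw [Finset.sum_const, smul_eq_mul] at hp1
  obtain ⟨k, hk⟩ := hX
  rw [hk] at hp1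
  have h3 : H76FC.cut p X + (2 * k + 1) * r = (H76FC.cut p X + r) + 2 * (k * r) := by ring
  rw [h3] at hp1
  exact (Nat.even_add.1 hp1).2 (even_two_mul _)

/-- Removing a perfect matching leaves an `(r-1)`-graph, or there are two disjoint minimal violated
sets. -/
theorem remove_or {r : ℕ} {p : V → V → ℕ} {M : V → V} (hr : 1 ≤ r) (hR : RGraph r p)
    (hM : PMof p M) : RGraph (r - 1) (minus p M) ∨
      ∃ S T : Finset V, Disjoint S T ∧ MinV (r - 1) (minus p M) S ∧ MinV (r - 1) (minus p M) T := by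
  classical
  have hPM := hM.1
  have hl : ∀ v, minus p M v v = 0 := by
    intro v
    have := minus_add hM v v
    rw [hR.loopless] at this
    omega
  have hs : ∀ u v, minus p M u v = minus p M v u := by
    intro u v
    have h1 := minus_add hM u v
    have h2 := minus_add hM v u
    rw [mg_symm hPM, hR.symm u v] at h1
    omega
  have hd : ∀ v, ∑ w, minus p M v w = r - 1 := by
    intro v
    have h1 : ∑ w, minus p M v w + ∑ w, mg M v w = ∑ w, p v w := by
      rw [← Finset.sum_add_distrib]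
      exact Finset.sum_congr rfl fun w _ => minus_add hM v w
    rw [mg_deg, hR.reg] at h1
    omega
  by_cases hall : ∀ X : Finset V, Odd X.card → r - 1 ≤ H76FC.cut (minus p M) X
  · exact Or.inl ⟨hl, hs, hd, hall⟩
  right
  push Not at hall
  obtain ⟨X, hX, hXlt⟩ := hall
  have hev : Even (Fintype.card V) := by
    by_contra hodd
    have := hR.odd univ (by simpa using hodd)
    simp [H76FC.cut] at this
    omega
  have hXc : Odd Xᶜ.card := by
    have hadd : X.card + Xᶜ.card = Fintype.card V := Finset.card_add_card_compl X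
    rw [← hadd] at hev
    exact (Nat.even_add'.1 hev).1 hX
  have hmin : ∀ X : Finset V, Odd X.card → H76FC.cut (minus p M) X < r - 1 →
      ∃ S, S ⊆ X ∧ MinV (r - 1) (minus p M) S := by
    intro X hX hlt
    obtain ⟨S, hS, hSmin⟩ := Finset.exists_min_image
      (X.powerset.filter fun Y => Odd Y.card ∧ H76FC.cut (minus p M) Y < r - 1) Finset.card
      ⟨X, Finset.mem_filter.2 ⟨Finset.mem_powerset_self X, hX, hlt⟩⟩
    rw [Finset.mem_filter, Finset.mem_powerset] at hS
    refine ⟨S, hS.1, hl, hs, hd, hS.2.1, hS.2.2, ?_⟩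
    intro Y hY hodd
    by_contra hc
    rw [not_le] at hc
    have h1 := hSmin Y (Finset.mem_filter.2 ⟨Finset.mem_powerset.2 (hY.1.trans hS.1), hodd, hc⟩)
    have h2 := Finset.card_lt_card hY
    omega
  obtain ⟨S, hSX, hS⟩ := hmin X hX hXlt
  obtain ⟨T, hTX, hT⟩ := hmin Xᶜ hXc (by rw [cutCompl V _ X hs]; exact hXlt)
  exact ⟨S, T, Finset.disjoint_of_subset_left hSX (Finset.disjoint_of_subset_right hTX
    disjoint_compl_right), hS, hT⟩

theorem J_le {q : V → V → ℕ} {S : Finset V} {H : SimpleGraph V}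
    (hq : ∀ u v, 0 < q u v → u ≠ v → H.Adj u v) : J q S ≤ H := by
  intro a b hab
  rcases hab.2.2.2 with h | h
  · exact hq a b h hab.1
  · exact (hq b a h hab.1.symm).symm

/-- minimal violated sets with at least five elements are heavy -/
theorem MinV.heavy {s : ℕ} {q : V → V → ℕ} {S : Finset V} (h : MinV s q S) (h5 : 5 ≤ S.card)
    {H : SimpleGraph V} (hq : ∀ u v, 0 < q u v → u ≠ v → H.Adj u v) : Heavy H S := by
  classical
  have hne : ∀ u v, 0 < q u v → u ≠ v := by
    rintro u v huv rfl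
    rw [h.loopless] at huv
    exact lt_irrefl 0 huv
  refine ⟨h.odd, ?_, ?_, ?_, ?_, ?_⟩
  · intro w hw
    by_contra hcon
    have hnonempty : Nonempty {x | x ∈ S ∧ x ≠ w} := by
      obtain ⟨a, ha, b, hb, hab⟩ := Finset.one_lt_card.1 (show 1 < S.card by omega)
      by_cases haw : a = w
      · exact ⟨⟨b, hb, fun e => hab (haw.trans e.symm)⟩⟩
      · exact ⟨⟨a, ha, haw⟩⟩
    obtain ⟨P, ⟨a, ha⟩, ⟨b, hb⟩, hP⟩ := Y13.split _ hcon
    refine h.sep1 (S.filter fun x => ∃ hx : x ∈ S ∧ x ≠ w, P ⟨x, hx⟩)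
      (S.filter fun x => ∃ hx : x ∈ S ∧ x ≠ w, ¬ P ⟨x, hx⟩) w ?_ ?_ ?_ ?_ ?_ ?_ ?_
    · rw [Finset.mem_filter]; rintro ⟨_, hx, _⟩; exact hx.2 rfl
    · rw [Finset.mem_filter]; rintro ⟨_, hx, _⟩; exact hx.2 rfl
    · rw [Finset.disjoint_left]
      intro x hx hx'
      rw [Finset.mem_filter] at hx hx'
      obtain ⟨_, h1, h2⟩ := hx
      obtain ⟨_, h3, h4⟩ := hx'
      exact h4 h2
    · ext x
      simp only [Finset.mem_insert, Finset.mem_union, Finset.mem_filter]
      constructor
      · rintro (rfl | hx | hx)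
        · exact hw
        · exact hx.1
        · exact hx.1
      · intro hx
        by_cases hxw : x = w
        · exact Or.inl hxw
        · by_cases hPx : P ⟨x, hx, hxw⟩
          · exact Or.inr (Or.inl ⟨hx, ⟨hx, hxw⟩, hPx⟩)
          · exact Or.inr (Or.inr ⟨hx, ⟨hx, hxw⟩, hPx⟩)
    · refine E_zero fun d hd r hr => ?_
      rw [Finset.mem_filter] at hd hr
      obtain ⟨_, h1, h2⟩ := hd
      obtain ⟨_, h3, h4⟩ := hr
      by_contra hne0
      have hpos := Nat.pos_of_ne_zero hne0
      have hadj : (H.induce {x | x ∈ S ∧ x ≠ w}).Adj ⟨d, h1⟩ ⟨r, h3⟩ := hq d r hpos (hne _ _ hpos)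
      exact h4 ((hP _ _ hadj).1 h2)
    · exact ⟨a.1, Finset.mem_filter.2 ⟨a.2.1, a.2, ha⟩⟩
    · exact ⟨b.1, Finset.mem_filter.2 ⟨b.2.1, b.2, hb⟩⟩
  · intro v hv
    obtain ⟨M, hM⟩ := h.crit v hv
    exact ⟨M, fun x hx hxv => ⟨(hM x hx hxv).1, (hM x hx hxv).2.1, (hM x hx hxv).2.2.1,
      J_le hq (hM x hx hxv).2.2.2⟩⟩
  · obtain ⟨v, c, hc1, hc2, hc3, hc4⟩ := h.oddCyc h5
    refine ⟨v, c.mapLe (J_le hq), hc1.mapLe _, ?_, ?_, ?_⟩
    · rw [SimpleGraph.Walk.length_mapLe]; exact hc2
    · rw [SimpleGraph.Walk.length_mapLe]; exact hc3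
    · intro x hx
      rw [SimpleGraph.Walk.support_mapLe_eq_support] at hx
      exact hc4 x hx
  · obtain ⟨f, hf1, hf2⟩ := spanned h.symm h.reg h.lt
    exact ⟨f, hf1, fun v hv => ⟨(hf2 v hv).1, hq _ _ (hf2 v hv).2 (hne _ _ (hf2 v hv).2)⟩⟩
  · have hlt : H76FC.cut q Sᶜ < s := by rw [cutCompl V _ S h.symm]; exact h.lt
    obtain ⟨f, hf1, hf2⟩ := spanned h.symm h.reg hlt
    refine ⟨f, ?_, ?_⟩
    · rw [← Finset.coe_compl]
      exact hf1
    · intro v hv
      rw [← Finset.coe_compl] at hv ⊢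
      have h1 := hf2 v (Finset.mem_coe.1 hv)
      exact ⟨Finset.mem_coe.2 h1.1, hq _ _ h1.2 (hne _ _ h1.2)⟩

/-- **Main step.** -/
theorem step {r : ℕ} {p : V → V → ℕ} (hr : 1 ≤ r) (hR : RGraph r p) (hN : NoTight r p)
    (hF : Few V (gr p)) : ∃ M, PMof p M ∧ RGraph (r - 1) (minus p M) := by
  classical
  have hgr : ∀ u v, 0 < p u v → u ≠ v → (gr p).Adj u v := fun u v h huv => Y13.adj_gr p u v huv h
  have hne : ∀ u v, 0 < p u v → u ≠ v := by
    rintro u v huv rfl
    rw [hR.loopless] at huv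
    exact lt_irrefl 0 huv
  have hq : ∀ M : V → V, ∀ u v, 0 < minus p M u v → u ≠ v → (gr p).Adj u v := by
    intro M u v h huv
    refine hgr u v ?_ huv
    unfold minus at h
    omega
  -- violated sets are crossed by many edges
  have hviol : ∀ M, PMof p M → ∀ S, MinV (r - 1) (minus p M) S →
      H76FC.cut p S - r + 3 ≤ out M S ∧ 5 ≤ out M S ∧ Heavy (gr p) S := by
    intro M hM S hS
    have h1 := cut_add hM S
    have h2 := hS.lt
    have h3 := hR.odd S hS.odd
    obtain ⟨a, ha⟩ := cut_parity hR hS.odd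
    obtain ⟨b, hb⟩ := out_parity hM.1 S
    obtain ⟨c, hc⟩ := hS.odd
    have h4 : H76FC.cut p S - r + 3 ≤ out M S := by omega
    have hle : out M S ≤ S.card := Finset.card_filter_le _ _
    have hle' : out M S ≤ Sᶜ.card := by
      apply Finset.card_le_card_of_injOn M
      · intro v hv
        have := (Finset.mem_filter.1 hv).2
        exact Finset.mem_coe.2 (Finset.mem_compl.2 this)
      · intro u _ v _ huv
        have := congrArg M huv
        rwa [hM.1.1, hM.1.1] at this
    have htight : H76FC.cut p S ≠ r := by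
      intro h0
      rcases hN S hS.odd h0 with h1 | h1 <;> omega
    have h5 : 5 ≤ out M S := by omega
    exact ⟨h4, h5, hS.heavy (by omega) (hq M)⟩
  rcases Nat.lt_or_ge r 3 with hr3 | hr3
  · -- `r ≤ 2`
    obtain ⟨M, hM, _⟩ := exists_avg hR hr ∅ (fun _ => 0) (by simp)
    refine ⟨M, hM, ?_⟩
    rcases remove_or hr hR hM with h | ⟨S, T, _, hS, _⟩
    · exact h
    · exfalso
      have h1 := cut_add hM S
      have h2 := hS.lt
      obtain ⟨a, ha⟩ := cut_parity hR hS.odd
      obtain ⟨b, hb⟩ := out_parity hM.1 S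
      obtain ⟨c, hc⟩ := hS.odd
      have h0 : H76FC.cut (minus p M) S = 0 := by omega
      rw [h0] at h1
      omega
  obtain ⟨k, y, hy0, hk, hy, hsum⟩ := hF
  set D : Finset V → ℕ := fun S => H76FC.cut p S - r with hD
  set F : Finset (Finset V) := univ.filter fun S => Heavy (gr p) S ∧ D S ≤ 2 * k S with hFdef
  set α : Finset V → ℝ := fun S => y S / (D S + 2) with hα
  have hα0 : ∀ S, 0 ≤ α S := fun S => by
    rw [hα]; exact div_nonneg (hy0 S) (by positivity)
  have hr0 : (0 : ℝ) < r := by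
    have : 0 < r := by omega
    exact_mod_cast this
  obtain ⟨M, hM, hcost⟩ := exists_avg hR hr F α (fun S _ => hα0 S)
  refine ⟨M, hM, ?_⟩
  rcases remove_or hr hR hM with h | ⟨S, T, hST, hS, hT⟩
  · exact h
  exfalso
  have hPM : PM (gr p) M := ⟨hM.1.1, fun v => hgr v (M v) (hM.2 v) (hne _ _ (hM.2 v))⟩
  obtain ⟨hS1, hS2, hS3⟩ := hviol M hM S hS
  obtain ⟨hT1, hT2, hT3⟩ := hviol M hM T hT
  have hyST : 1 ≤ y S + y T := hy M hPM S T hS3 hT3 hST (by rw [cross_out]; exact hS2)
    (by rw [cross_out]; exact hT2)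
  have hSF : S ∈ F := by
    rw [hFdef, Finset.mem_filter]
    refine ⟨Finset.mem_univ _, hS3, ?_⟩
    have := hk M hPM S hS3
    rw [cross_out] at this
    show H76FC.cut p S - r ≤ _
    omega
  have hTF : T ∈ F := by
    rw [hFdef, Finset.mem_filter]
    refine ⟨Finset.mem_univ _, hT3, ?_⟩
    have := hk M hPM T hT3
    rw [cross_out] at this
    show H76FC.cut p T - r ≤ _
    omega
  have hSTne : S ≠ T := by
    intro he
    rw [he, disjoint_self] at hST
    have := hT.odd
    rw [hST] at this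
    simp at this
  -- the average
  have hodd : ∀ U ∈ F, Odd U.card := fun U hU => (Finset.mem_filter.1 hU).2.1.odd
  have hout1 : ∀ U ∈ F, 1 ≤ out M U := by
    intro U hU
    obtain ⟨b, hb⟩ := out_parity hM.1 U
    obtain ⟨c, hc⟩ := hodd U hU
    omega
  have hcutD : ∀ U ∈ F, (H76FC.cut p U : ℝ) = D U + r := by
    intro U hU
    have := hR.odd U (hodd U hU)
    have h2 : H76FC.cut p U = D U + r := by
      show H76FC.cut p U = (H76FC.cut p U - r) + r
      omega
    rw [h2]; push_cast; ring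
  have h1 : ∑ U ∈ F, α U * ((out M U : ℝ) - 1) ≤ ∑ U ∈ F, α U * ((D U : ℝ) / r) := by
    have e1 : ∑ U ∈ F, α U * ((out M U : ℝ) - 1) = ∑ U ∈ F, α U * out M U - ∑ U ∈ F, α U := by
      rw [← Finset.sum_sub_distrib]
      exact Finset.sum_congr rfl fun U _ => by ring
    have e2 : ∑ U ∈ F, α U * ((H76FC.cut p U : ℝ) / r) =
        ∑ U ∈ F, α U * ((D U : ℝ) / r) + ∑ U ∈ F, α U := by
      rw [← Finset.sum_add_distrib]
      refine Finset.sum_congr rfl fun U hU => ?_
      rw [hcutD U hU]
      field_simp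
    rw [e2] at hcost
    rw [e1]
    linarith
  have h2 : ∑ U ∈ F, α U * ((D U : ℝ) / r) < 1 := by
    have e1 : ∑ U ∈ F, α U * ((D U : ℝ) / r) ≤
        (∑ U ∈ F, y U * ((k U : ℝ) / (k U + 1))) / r := by
      rw [Finset.sum_div]
      refine Finset.sum_le_sum fun U hU => ?_
      have hDk : (D U : ℝ) ≤ 2 * k U := by exact_mod_cast (Finset.mem_filter.1 hU).2.2
      have hD0 : (0 : ℝ) ≤ D U := Nat.cast_nonneg _
      have hk0 : (0 : ℝ) ≤ k U := Nat.cast_nonneg _
      have h3 : (D U : ℝ) / (D U + 2) ≤ (k U : ℝ) / (k U + 1) := by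
        rw [div_le_div_iff₀ (by positivity) (by positivity)]
        nlinarith
      have e3 : α U * ((D U : ℝ) / r) = y U * ((D U : ℝ) / (D U + 2)) / r := by
        rw [hα]; field_simp
      rw [e3]
      exact div_le_div_of_nonneg_right (mul_le_mul_of_nonneg_left h3 (hy0 U)) hr0.le
    have e2 : ∑ U ∈ F, y U * ((k U : ℝ) / (k U + 1)) < 3 := by
      refine lt_of_le_of_lt ?_ hsum
      rw [← Finset.sum_filter]
      refine Finset.sum_le_sum_of_subset_of_nonneg ?_ ?_
      · intro U hU
        rw [hFdef, Finset.mem_filter] at hU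
        exact Finset.mem_filter.2 ⟨Finset.mem_univ _, hU.2.1⟩
      · intro U _ _
        exact mul_nonneg (hy0 U) (by positivity)
    refine lt_of_le_of_lt e1 ?_
    rw [div_lt_one hr0]
    have : (3 : ℝ) ≤ r := by exact_mod_cast hr3
    linarith
  have h3 : y S + y T ≤ ∑ U ∈ F, α U * ((out M U : ℝ) - 1) := by
    have hpair : ({S, T} : Finset (Finset V)) ⊆ F := by
      intro U hU
      rw [Finset.mem_insert, Finset.mem_singleton] at hU
      rcases hU with rfl | rfl
      · exact hSF
      · exact hTF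
    have h4 : ∑ U ∈ ({S, T} : Finset (Finset V)), α U * ((out M U : ℝ) - 1) ≤
        ∑ U ∈ F, α U * ((out M U : ℝ) - 1) := by
      refine Finset.sum_le_sum_of_subset_of_nonneg hpair fun U hU _ => ?_
      refine mul_nonneg (hα0 U) ?_
      have := hout1 U hU
      have : (1 : ℝ) ≤ out M U := by exact_mod_cast this
      linarith
    rw [Finset.sum_pair hSTne] at h4
    have h5 : ∀ U, H76FC.cut p U - r + 3 ≤ out M U → y U ≤ α U * ((out M U : ℝ) - 1) := by
      intro U hU
      have hU' : (D U : ℝ) + 3 ≤ out M U := by exact_mod_cast hU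
      have hD0 : (0 : ℝ) ≤ D U := Nat.cast_nonneg _
      have e : y U = α U * ((D U : ℝ) + 2) := by
        rw [hα]; field_simp
      calc y U = α U * ((D U : ℝ) + 2) := e
        _ ≤ α U * ((out M U : ℝ) - 1) := mul_le_mul_of_nonneg_left (by linarith) (hα0 U)
    have h6 := h5 S hS1
    have h7 := h5 T hT1
    linarith
  linarith

end Pool.Agent.TH583.HB
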