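import Pool.Agent.TH583.HB.Cyc

/-!
# Minimal violated odd cuts contain odd cycles of length at least five, continued
-/

set_option autoImplicit false
set_option linter.unusedSectionVars false

namespace Pool.Agent.TH583.HB

open Finset H76FC SimpleGraph

variable {V : Type} [Fintype V] [DecidableEq V]

/-- the component of `x` in `J` outside `T` -/
def JT (q : V → V → ℕ) (S T : Finset V) : SimpleGraph V where
  Adj a b := (J q S).Adj a b ∧ a ∉ T ∧ b ∉ T
  symm := ⟨fun _ _ h => ⟨h.1.symm, h.2.2, h.2.1⟩⟩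
  loopless := ⟨fun _ h => h.1.ne rfl⟩

theorem JT_le (q : V → V → ℕ) (S T : Finset V) : JT q S T ≤ J q S := fun _ _ h => h.1

theorem JT_support {q : V → V → ℕ} {S T : Finset V} {a b : V} (p : (JT q S T).Walk a b)
    (ha : a ∉ T) : ∀ x ∈ p.support, x ∉ T := by
  induction p with
  | nil => intro x hx; simp only [SimpleGraph.Walk.support_nil, List.mem_singleton] at hx; rwa [hx]
  | cons h p ih =>
    intro x hx
    rw [SimpleGraph.Walk.support_cons, List.mem_cons] at hx
    rcases hx with rfl | hx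
    · exact ha
    · exact ih h.2.2 x hx

theorem J_adj_of {q : V → V → ℕ} {S : Finset V} {s : ℕ} (h : MinV s q S) {a b : V} (ha : a ∈ S)
    (hb : b ∈ S) (hab : q a b ≠ 0) : (J q S).Adj a b := by
  refine ⟨?_, ha, hb, Or.inl (Nat.pos_of_ne_zero hab)⟩
  rintro rfl
  exact hab (h.loopless _)

theorem third {x y z a b : V} (ha : a ∈ ({x, y, z} : Finset V)) (hb : b ∈ ({x, y, z} : Finset V))
    (hxy : x ≠ y) (hyz : y ≠ z) (hxz : x ≠ z) (hab : a ≠ b) :
    ∃ c ∈ ({x, y, z} : Finset V), c ≠ a ∧ c ≠ b ∧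
      ∀ t ∈ ({x, y, z} : Finset V), t = a ∨ t = b ∨ t = c := by
  simp only [Finset.mem_insert, Finset.mem_singleton] at ha hb ⊢
  rcases ha with rfl | rfl | rfl <;> rcases hb with rfl | rfl | rfl
  · exact absurd rfl hab
  · exact ⟨z, by tauto, hxz.symm, hyz.symm, by tauto⟩
  · exact ⟨y, by tauto, hxy.symm, hyz, by tauto⟩
  · exact ⟨z, by tauto, hyz.symm, hxz.symm, by tauto⟩
  · exact absurd rfl hab
  · exact ⟨x, by tauto, hxy, hxz, by tauto⟩
  · exact ⟨y, by tauto, hyz, hxy.symm, by tauto⟩
  · exact ⟨x, by tauto, hxz, hxy, by tauto⟩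
  · exact absurd rfl hab

/-- an odd cycle of length at least five in a minimal violated set with at least five elements -/
theorem MinV.oddCyc {s : ℕ} {q : V → V → ℕ} {S : Finset V} (h : MinV s q S) (h5 : 5 ≤ S.card) :
    OddCyc (J q S) S := by
  classical
  by_contra hno
  have hno' : ∀ (v : V) (c : (J q S).Walk v v), c.IsCycle → Odd c.length → 5 ≤ c.length → False := by
    intro v c h1 h2 h3
    exact hno ⟨v, c, h1, h2, h3, J_support c (by omega)⟩
  obtain ⟨v, c, hc, hodd⟩ := exists_odd_cycle h.not_col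
  have h3 : c.length = 3 := by
    have h3 := hc.three_le_length
    by_contra hne
    obtain ⟨m, hm⟩ := hodd
    exact hno' v c hc ⟨m, hm⟩ (by omega)
  -- the triangle
  obtain ⟨x, y, z, hxy, hyz, hzx⟩ : ∃ x y z, (J q S).Adj x y ∧ (J q S).Adj y z ∧ (J q S).Adj z x := by
    refine ⟨c.getVert 0, c.getVert 1, c.getVert 2, c.adj_getVert_succ (by omega),
      c.adj_getVert_succ (by omega), ?_⟩
    have := c.adj_getVert_succ (i := 2) (by omega)
    have e : c.getVert (2 + 1) = c.getVert 0 := by
      have h1 := c.getVert_length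
      rw [h3] at h1
      rw [h1, c.getVert_zero]
    rwa [e] at this
  clear hc hodd h3 c v
  set T : Finset V := {x, y, z} with hT
  have hTS : T ⊆ S := by
    intro t ht
    rw [hT] at ht
    simp only [Finset.mem_insert, Finset.mem_singleton] at ht
    rcases ht with rfl | rfl | rfl
    · exact hxy.2.1
    · exact hxy.2.2.1
    · exact hyz.2.2.1
  have hTadj : ∀ t ∈ T, ∀ t' ∈ T, t ≠ t' → (J q S).Adj t t' := by
    intro t ht t' ht' hne
    rw [hT] at ht ht'
    simp only [Finset.mem_insert, Finset.mem_singleton] at ht ht'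
    rcases ht with rfl | rfl | rfl <;> rcases ht' with rfl | rfl | rfl <;>
      first
        | exact absurd rfl hne
        | exact hxy
        | exact hxy.symm
        | exact hyz
        | exact hyz.symm
        | exact hzx
        | exact hzx.symm
  have hTc : T.card = 3 := by
    rw [hT, Finset.card_eq_three]
    exact ⟨x, y, z, hxy.ne, hzx.ne', hyz.ne, rfl⟩
  have hthird : ∀ a ∈ T, ∀ b ∈ T, a ≠ b → ∃ c ∈ T, c ≠ a ∧ c ≠ b ∧ ∀ t ∈ T, t = a ∨ t = b ∨ t = c :=
    fun a ha b hb hab => third ha hb hxy.ne hyz.ne hzx.ne' hab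
  -- paths
  have hpath : ∀ t ∈ T, ∀ t' ∈ T, t ≠ t' → ∀ a b, a ∉ T → (J q S).Adj t a → (J q S).Adj t' b →
      (JT q S T).Reachable a b → a = b := by
    intro t ht t' ht' hne a b haT hta htb hr
    by_contra hab
    obtain ⟨t'', ht'', h1, h2, _⟩ := hthird t ht t' ht' hne
    obtain ⟨p0, hp0⟩ := hr.exists_isPath
    have hp := hp0.mapLe (JT_le q S T)
    have hsup : ∀ u ∈ (p0.mapLe (JT_le q S T)).support, u ∉ T := by
      intro u hu
      rw [SimpleGraph.Walk.support_mapLe_eq_support] at hu
      exact JT_support p0 haT u hu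
    obtain ⟨c, hc1, hc2, hc3⟩ := path_cycle (p0.mapLe (JT_le q S T)) hp hab
      (fun hh => hsup _ hh ht) (fun hh => hsup _ hh ht') (fun hh => hsup _ hh ht'') hta htb.symm
      (hTadj _ ht' _ ht (Ne.symm hne)) (hTadj _ ht' _ ht'' (Ne.symm h2)) (hTadj _ ht'' _ ht h1)
    exact hno' t c hc1 hc2 hc3
  -- components
  have hsingle : ∀ u ∈ S, u ∉ T → (∀ w, (J q S).Adj u w → w ∈ T) ∧
      ∃ r1 ∈ T, ∃ r2 ∈ T, r1 ≠ r2 ∧ (J q S).Adj u r1 ∧ (J q S).Adj u r2 := by
    intro u hu huT
    set Q : Finset V := S.filter fun a => a ∉ T ∧ (JT q S T).Reachable u a with hQ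
    have huQ : u ∈ Q := by
      rw [hQ, Finset.mem_filter]; exact ⟨hu, huT, SimpleGraph.Reachable.refl _⟩
    have hQ' : ∀ d ∈ Q, ∀ r ∈ S, r ∉ Q → q d r ≠ 0 → r ∈ T := by
      intro d hd r hr hrQ hdr
      by_contra hrT
      apply hrQ
      rw [hQ, Finset.mem_filter] at hd ⊢
      refine ⟨hr, hrT, hd.2.2.trans ?_⟩
      exact SimpleGraph.Adj.reachable ⟨J_adj_of h hd.1 hr hdr, hd.2.1, hrT⟩
    have hreach : ∀ d ∈ Q, ∀ d' ∈ Q, (JT q S T).Reachable d d' := by
      intro d hd d' hd'
      rw [hQ, Finset.mem_filter] at hd hd'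
      exact hd.2.2.symm.trans hd'.2.2
    have hatt : ∀ w ∈ T, ∃ r ∈ T, r ≠ w ∧ ∃ d ∈ Q, (J q S).Adj d r := by
      intro w hw
      by_contra hcon
      push Not at hcon
      have hwQ : w ∉ Q := by
        rw [hQ, Finset.mem_filter]; exact fun hh => hh.2.1 hw
      refine h.sep1 Q ((S \ Q).erase w) w hwQ (Finset.notMem_erase _ _) ?_ ?_ ?_ ⟨u, huQ⟩ ?_
      · rw [Finset.disjoint_left]
        intro a ha ha'
        rw [Finset.mem_erase, Finset.mem_sdiff] at ha'
        exact ha'.2.2 ha
      · ext a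
        simp only [Finset.mem_insert, Finset.mem_union, Finset.mem_erase, Finset.mem_sdiff]
        constructor
        · rintro (rfl | ha | ha)
          · exact hTS hw
          · exact (Finset.mem_filter.1 ha).1
          · exact ha.2.1
        · intro ha
          by_cases h1 : a = w
          · exact Or.inl h1
          · by_cases h2 : a ∈ Q
            · exact Or.inr (Or.inl h2)
            · exact Or.inr (Or.inr ⟨h1, ha, h2⟩)
      · refine E_zero fun d hd r hr => ?_
        rw [Finset.mem_erase, Finset.mem_sdiff] at hr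
        by_contra hne
        have hrT := hQ' d hd r hr.2.1 hr.2.2 hne
        exact hcon r hrT hr.1 d hd (J_adj_of h (Finset.mem_filter.1 hd).1 hr.2.1 hne)
      · obtain ⟨t, ht, htw⟩ : ∃ t ∈ T, t ≠ w := by
          by_contra hc
          push Not at hc
          have : T ⊆ {w} := fun t ht => Finset.mem_singleton.2 (hc t ht)
          have := Finset.card_le_card this
          rw [hTc, Finset.card_singleton] at this
          omega
        refine ⟨t, ?_⟩
        rw [Finset.mem_erase, Finset.mem_sdiff]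
        refine ⟨htw, hTS ht, ?_⟩
        rw [hQ, Finset.mem_filter]
        exact fun hh => hh.2.1 ht
    have hxT : x ∈ T := by rw [hT]; simp
    obtain ⟨r1, hr1, _, d1, hd1, hdr1⟩ := hatt x hxT
    obtain ⟨r2, hr2, hr12, d2, hd2, hdr2⟩ := hatt r1 hr1
    have hd1T : d1 ∉ T := (Finset.mem_filter.1 hd1).2.1
    have hd12 : d1 = d2 := hpath r1 hr1 r2 hr2 hr12.symm d1 d2 hd1T hdr1.symm hdr2.symm
      (hreach _ hd1 _ hd2)
    subst hd12
    -- the component is a single vertex
    have hQd : ∀ d ∈ Q, d = d1 := by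
      intro d hd
      by_contra hne
      have hd1S : d1 ∈ S := (Finset.mem_filter.1 hd1).1
      refine h.sep1 (Q.erase d1) (S \ Q) d1 (Finset.notMem_erase _ _) ?_ ?_ ?_ ?_
        ⟨d, Finset.mem_erase.2 ⟨hne, hd⟩⟩ ?_
      · rw [Finset.mem_sdiff]; exact fun hh => hh.2 hd1
      · rw [Finset.disjoint_left]
        intro a ha ha'
        rw [Finset.mem_erase] at ha
        rw [Finset.mem_sdiff] at ha'
        exact ha'.2 ha.2
      · ext a
        simp only [Finset.mem_insert, Finset.mem_union, Finset.mem_erase, Finset.mem_sdiff]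
        constructor
        · rintro (rfl | ha | ha)
          · exact hd1S
          · exact (Finset.mem_filter.1 ha.2).1
          · exact ha.1
        · intro ha
          by_cases h1 : a = d1
          · exact Or.inl h1
          · by_cases h2 : a ∈ Q
            · exact Or.inr (Or.inl ⟨h1, h2⟩)
            · exact Or.inr (Or.inr ⟨ha, h2⟩)
      · refine E_zero fun d hd r hr => ?_
        rw [Finset.mem_erase] at hd
        rw [Finset.mem_sdiff] at hr
        by_contra hne'
        have hrT := hQ' d hd.2 r hr.1 hr.2 hne'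
        have hadj := J_adj_of h (Finset.mem_filter.1 hd.2).1 hr.1 hne'
        by_cases hr' : r = r1
        · have hne2 : r2 ≠ r := by rw [hr']; exact hr12
          exact hd.1 (hpath r2 hr2 r hrT hne2 d1 d hd1T hdr2.symm hadj.symm
            (hreach _ hd1 _ hd.2)).symm
        · exact hd.1 (hpath r1 hr1 r hrT (Ne.symm hr') d1 d hd1T hdr1.symm hadj.symm
            (hreach _ hd1 _ hd.2)).symm
      · refine ⟨x, ?_⟩
        rw [Finset.mem_sdiff]
        refine ⟨hTS hxT, ?_⟩
        rw [hQ, Finset.mem_filter]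
        exact fun hh => hh.2.1 hxT
    have hud : u = d1 := hQd u huQ
    refine ⟨?_, r1, hr1, r2, hr2, hr12.symm, by rw [hud]; exact hdr1, by rw [hud]; exact hdr2⟩
    intro w hw
    by_contra hwT
    have hwQ : w ∈ Q := by
      rw [hQ, Finset.mem_filter]
      exact ⟨hw.2.2.1, hwT, SimpleGraph.Adj.reachable ⟨hw, huT, hwT⟩⟩
    have : w = u := (hQd w hwQ).trans hud.symm
    exact hw.ne this.symm
  -- five-cycles
  have hfive : ∀ u ∈ S, u ∉ T → ∀ u' ∈ S, u' ∉ T → u ≠ u' → ∀ w ∈ T, ∀ a ∈ T, ∀ b ∈ T, w ≠ a → w ≠ b →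
      a ≠ b → (J q S).Adj u w → (J q S).Adj u a → (J q S).Adj u' w → (J q S).Adj u' b → False := by
    intro u _ huT u' _ huT' hne w hw a ha b hb hwa hwb hab h1 h2 h3 h4
    obtain ⟨c, hc1, hc2, hc3⟩ := five h1 h2 h3 h4 (hTadj a ha b hb hab) hne
      (fun e => huT (e ▸ hb)) (fun e => huT' (e ▸ ha)) hwa hwb
    exact hno' w c hc1 hc2 hc3
  -- two vertices outside of the triangle
  have hcard : (S \ T).card + 3 = S.card := by
    rw [← hTc]
    exact Finset.card_sdiff_add_card_eq_card hTS
  obtain ⟨u1, hu1, u2, hu2, hu12⟩ := Finset.one_lt_card.1 (show 1 < (S \ T).card by omega)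
  rw [Finset.mem_sdiff] at hu1 hu2
  obtain ⟨_, r1, hr1, r2, hr2, hr12, ha1, ha2⟩ := hsingle u1 hu1.1 hu1.2
  obtain ⟨r3, hr3, h31, h32, hall⟩ := hthird r1 hr1 r2 hr2 hr12
  have hclaim : ∀ u ∈ S, u ∉ T → ¬ (J q S).Adj u r3 := by
    intro u hu huT hur
    by_cases hu1' : u = u1
    · subst hu1'
      obtain ⟨_, s1, hs1, s2, hs2, hs12, hb1, hb2⟩ := hsingle u2 hu2.1 hu2.2
      obtain ⟨s3, hs3, h31', h32', hall'⟩ := hthird s1 hs1 s2 hs2 hs12
      have hadj : ∀ t ∈ T, (J q S).Adj u t := by
        intro t ht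
        rcases hall t ht with rfl | rfl | rfl
        · exact ha1
        · exact ha2
        · exact hur
      exact hfive u hu1.1 hu1.2 u2 hu2.1 hu2.2 hu12 s1 hs1 s3 hs3 s2 hs2 h31'.symm hs12 h32'
        (hadj _ hs1) (hadj _ hs3) hb1 hb2
    · obtain ⟨_, s1, hs1, s2, hs2, hs12, hb1, hb2⟩ := hsingle u hu huT
      -- `u` has a neighbour `w` in `{r1, r2}`
      have : (J q S).Adj u r1 ∨ (J q S).Adj u r2 := by
        rcases hall s1 hs1 with rfl | rfl | rfl
        · exact Or.inl hb1
        · exact Or.inr hb1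
        · rcases hall s2 hs2 with rfl | rfl | rfl
          · exact Or.inl hb2
          · exact Or.inr hb2
          · exact absurd rfl hs12
      rcases this with hw | hw
      · exact hfive u1 hu1.1 hu1.2 u hu huT (Ne.symm hu1') r1 hr1 r2 hr2 r3 hr3 hr12 h31.symm
          h32.symm ha1 ha2 hw hur
      · exact hfive u1 hu1.1 hu1.2 u hu huT (Ne.symm hu1') r2 hr2 r1 hr1 r3 hr3 hr12.symm h32.symm
          h31.symm ha2 ha1 hw hur
  -- counting
  have hI : ({r1, r2} : Finset V) ⊆ S := by
    intro t ht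
    simp only [Finset.mem_insert, Finset.mem_singleton] at ht
    rcases ht with rfl | rfl
    · exact hTS hr1
    · exact hTS hr2
  have hc2 : ({r1, r2} : Finset V).card = 2 := Finset.card_pair hr12
  refine h.no_indep (S \ {r1, r2}) {r1, r2} Finset.sdiff_disjoint (Finset.sdiff_union_of_subset hI)
    (E_zero fun a ha b hb => ?_) ?_
  · by_contra hne
    rw [Finset.mem_sdiff] at ha hb
    have hadj := J_adj_of h ha.1 hb.1 hne
    simp only [Finset.mem_insert, Finset.mem_singleton, not_or] at ha hb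
    by_cases haT : a ∈ T
    · have ha3 : a = r3 := by
        rcases hall a haT with h' | h' | h'
        · exact absurd h' ha.2.1
        · exact absurd h' ha.2.2
        · exact h'
      by_cases hbT : b ∈ T
      · have hb3 : b = r3 := by
          rcases hall b hbT with h' | h' | h'
          · exact absurd h' hb.2.1
          · exact absurd h' hb.2.2
          · exact h'
        exact hadj.ne (ha3.trans hb3.symm)
      · exact hclaim b hb.1 hbT (ha3 ▸ hadj.symm)
    · have hbT := (hsingle a ha.1 haT).1 b hadj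
      have hb3 : b = r3 := by
        rcases hall b hbT with h' | h' | h'
        · exact absurd h' hb.2.1
        · exact absurd h' hb.2.2
        · exact h'
      exact hclaim a ha.1 haT (hb3 ▸ hadj)
  · have := Finset.card_sdiff_add_card_eq_card hI
    omega

end Pool.Agent.TH583.HB
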